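import Pool.Agent.Helper6.Rsl.Emb

/-! # The first moment bound: `e(Γ[S]) ≤ K i |S|` if `α(Γ[S]) < i` and `Γ` does not contain `T` -/

set_option autoImplicit false
open Classical Finset

namespace Pool.Agent.Helper6.Rsl
open Pool.Agent.Helper30.TwoTree (prs tri restr nb turan_bound)
open Pool.Agent.Helper14.Rsl

variable {X : Type} [Fintype X]

theorem prs_eq_sum (Γ : SimpleGraph X) (S : Finset X) :
    (prs (restr Γ S)).card = ∑ u ∈ S, (nb Γ S u).card := by
  rw [← Finset.card_sigma]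
  refine Finset.card_nbij' (fun p => ⟨p.1, p.2⟩) (fun p => (p.1, p.2)) ?_ ?_ ?_ ?_
  · rintro ⟨u, w⟩ hp
    simp only [prs, restr, mem_coe, mem_filter, mem_univ, true_and] at hp
    simp only [nb, coe_sigma, Set.mem_sigma_iff, mem_coe, mem_filter]
    tauto
  · rintro ⟨u, w⟩ hp
    simp only [nb, coe_sigma, Set.mem_sigma_iff, mem_coe, mem_filter] at hp
    simp only [prs, restr, mem_coe, mem_filter, mem_univ, true_and]
    tauto
  · rintro ⟨u, w⟩ _; rfl
  · rintro ⟨u, w⟩ _; rfl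

theorem prs_eq_sum' (E : SimpleGraph X) (S : Finset X) (hE : ∀ a b, E.Adj a b → a ∈ S) :
    (prs E).card = ∑ u ∈ S, (nbr E u).card := by
  rw [← Finset.card_sigma]
  refine Finset.card_nbij' (fun p => ⟨p.1, p.2⟩) (fun p => (p.1, p.2)) ?_ ?_ ?_ ?_
  · rintro ⟨u, w⟩ hp
    simp only [prs, mem_coe, mem_filter, mem_univ, true_and] at hp
    simp only [nbr, coe_sigma, Set.mem_sigma_iff, mem_coe, mem_filter, mem_univ, true_and]
    exact ⟨hE _ _ hp, hp⟩
  · rintro ⟨u, w⟩ hp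
    simp only [nbr, coe_sigma, Set.mem_sigma_iff, mem_coe, mem_filter, mem_univ, true_and] at hp
    simp only [prs, mem_coe, mem_filter, mem_univ, true_and]
    exact hp.2
  · rintro ⟨u, w⟩ _; rfl
  · rintro ⟨u, w⟩ _; rfl

theorem sum_chr_le (E Γ : SimpleGraph X) (S : Finset X) :
    ∑ u ∈ S, ∑ w ∈ nbr E u, ((nbr E u).filter (fun z => Γ.Adj w z)).card ≤ (chr E Γ).card := by
  have h1 : ∑ u ∈ S, ∑ w ∈ nbr E u, ((nbr E u).filter (fun z => Γ.Adj w z)).card =
      (S.sigma (fun u => (nbr E u).sigma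
        (fun w => (nbr E u).filter (fun z => Γ.Adj w z)))).card := by
    rw [Finset.card_sigma]
    refine Finset.sum_congr rfl fun u _ => ?_
    rw [Finset.card_sigma]
  rw [h1]
  refine Finset.card_le_card_of_injOn (fun p => (p.1, p.2.1, p.2.2)) ?_ ?_
  · rintro ⟨u, w, z⟩ hp
    simp only [nbr, coe_sigma, Set.mem_sigma_iff, mem_coe, mem_filter, mem_univ, true_and] at hp
    simp only [chr, mem_coe, mem_filter, mem_univ, true_and]
    tauto
  · rintro ⟨u, w, z⟩ _ ⟨u', w', z'⟩ _ h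
    simp only [Prod.mk.injEq] at h
    obtain ⟨rfl, rfl, rfl⟩ := h
    rfl

/-- the triangle-poor edges -/
theorem poor_le (s : ℕ) (Γ : SimpleGraph X) (S : Finset X) (i : ℕ)
    (hi : ∀ I ⊆ S, (∀ a ∈ I, ∀ b ∈ I, ¬ Γ.Adj a b) → I.card < i) (E : SimpleGraph X)
    (hE : E ≤ restr Γ S) (hchr : (chr E (restr Γ S)).card ≤ 3 * s * (prs E).card) :
    ((prs E).card : ℝ) ≤ (3 * s + 1) * i * S.card := by
  set P : ℝ := ((prs E).card : ℝ) with hP
  have hES : ∀ a b, E.Adj a b → a ∈ S := fun a b h => (hE h).2.1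
  have hPs : P = ∑ u ∈ S, ((nbr E u).card : ℝ) := by
    rw [hP, prs_eq_sum' E S hES]; push_cast; rfl
  set Q : ℝ := ∑ u ∈ S, ((nbr E u).card : ℝ) ^ 2 with hQ
  have h1 : Q ≤ i * ((3 * s + 1) * P) := by
    have h2 : Q ≤ ∑ u ∈ S, (i : ℝ) * ((∑ w ∈ nbr E u,
        (((nbr E u).filter (fun z => Γ.Adj w z)).card : ℝ)) + (nbr E u).card) := by
      refine Finset.sum_le_sum fun u _ => ?_
      refine turan_bound Γ (nbr E u) i fun I hI hI' => hi I (hI.trans ?_) hI'
      intro z hz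
      simp only [nbr, mem_filter, mem_univ, true_and] at hz
      exact hES _ _ hz.symm
    refine h2.trans ?_
    rw [← Finset.mul_sum, Finset.sum_add_distrib, ← hPs]
    apply mul_le_mul_of_nonneg_left _ (by positivity)
    have h3 : ∑ u ∈ S, ∑ w ∈ nbr E u, ((nbr E u).filter (fun z => Γ.Adj w z)).card ≤
        3 * s * (prs E).card := by
      refine le_trans (le_of_eq ?_) ((sum_chr_le E (restr Γ S) S).trans hchr)
      refine Finset.sum_congr rfl fun u _ => Finset.sum_congr rfl fun w hw => ?_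
      congr 1
      ext z
      simp only [nbr, mem_filter, mem_univ, true_and, restr] at hw ⊢
      constructor
      · rintro ⟨h4, h5⟩
        exact ⟨h4, h5, hES _ _ hw.symm, hES _ _ h4.symm⟩
      · rintro ⟨h4, h5⟩
        exact ⟨h4, h5.1⟩
    have h5 : (∑ u ∈ S, ∑ w ∈ nbr E u, (((nbr E u).filter (fun z => Γ.Adj w z)).card : ℝ)) ≤
        3 * s * P := by
      rw [hP]; exact_mod_cast h3
    linarith
  have h6 : P ^ 2 ≤ S.card * Q := by
    have := Finset.sum_sq_le_sum_mul_sum_of_sq_le_mul S (r := fun u => ((nbr E u).card : ℝ))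
      (f := fun _ => (1 : ℝ)) (g := fun u => ((nbr E u).card : ℝ) ^ 2)
      (fun u _ => by positivity) (fun u _ => by positivity) (fun u _ => by rw [one_mul])
    rw [hPs]
    simpa using this
  have hP0 : 0 ≤ P := by positivity
  rcases hP0.eq_or_lt with h0 | h0
  · rw [← h0]; positivity
  · have h7 : P * P ≤ ((3 * s + 1) * i * S.card) * P := by
      calc P * P = P ^ 2 := by ring
        _ ≤ S.card * Q := h6
        _ ≤ S.card * (i * ((3 * s + 1) * P)) := mul_le_mul_of_nonneg_left h1 (by positivity)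
        _ = _ := by ring
    exact le_of_mul_le_mul_right h7 h0

theorem Phi_le (s : ℕ) (Γ : SimpleGraph X) (S : Finset X) : Phi s (restr Γ S) ≤ s * S.card ^ 2 := by
  have h1 : ∀ p : X × X, (if p.1 ≠ p.2 then min (cn (restr Γ S) p.1 p.2).card s else 0) ≤
      if p ∈ S ×ˢ S then s else 0 := by
    intro p
    by_cases hp : p ∈ S ×ˢ S
    · rw [if_pos hp]
      split_ifs
      · exact min_le_right _ _
      · exact Nat.zero_le _
    · rw [if_neg hp]
      have h2 : cn (restr Γ S) p.1 p.2 = ∅ := by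
        apply Finset.eq_empty_of_forall_notMem
        intro z hz
        simp only [cn, mem_filter, mem_univ, true_and, restr] at hz
        exact hp (Finset.mem_product.2 ⟨hz.1.2.1, hz.2.2.1⟩)
      rw [h2]
      simp
  refine (Finset.sum_le_sum fun p _ => h1 p).trans ?_
  rw [← Finset.sum_filter, Finset.sum_const, smul_eq_mul, Finset.filter_mem_eq_inter, Finset.univ_inter,
    Finset.card_product]
  exact le_of_eq (by ring)

/-- auxiliary constant -/
noncomputable def K1 (s : ℕ) (c0 : ℝ) : ℝ := 1 + 32 * s + 128 * s ^ 2 + Real.sqrt c0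

/-- the constant of the first moment bound -/
noncomputable def KK (s : ℕ) (c0 : ℝ) : ℝ := (3 * s + 1) + K1 s c0 * ((3 * s + 2) + K1 s c0)

theorem one_le_K1 (s : ℕ) (c0 : ℝ) : 1 ≤ K1 s c0 := by
  unfold K1
  have : (0:ℝ) ≤ 32 * s + 128 * s ^ 2 := by positivity
  have := Real.sqrt_nonneg c0
  linarith

theorem one_le_KK (s : ℕ) (c0 : ℝ) : 1 ≤ KK s c0 := by
  unfold KK
  have h1 := one_le_K1 s c0
  have h2 : (0:ℝ) ≤ (s : ℝ) := Nat.cast_nonneg s
  have h3 : 0 ≤ K1 s c0 * ((3 * s + 2) + K1 s c0) := by positivity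
  linarith

/-- the first moment bound -/
theorem first_moment {V : Type} [Fintype V] {T : SimpleGraph V} {r : V → ℕ} {A : Set V}
    (hB : Build T r A) (c0 : ℝ) (hc0 : 0 ≤ c0) (Γ : SimpleGraph X)
    (hbase : ∀ (Γ' : SimpleGraph X) (S' : Finset X), Γ' ≤ Γ → (∀ a b, Γ'.Adj a b → a ∈ S') →
      c0 * (S'.card : ℝ) ^ 3 < ((prs Γ').card : ℝ) ^ 2 →
      ∃ f : V → X, (∀ a ∈ A, f a ∈ S') ∧ (∀ a ∈ A, ∀ b ∈ A, f a = f b → a = b) ∧
        ∀ a ∈ A, ∀ b ∈ A, T.Adj a b → Γ'.Adj (f a) (f b))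
    (hno : ¬ ∃ f : V → X, Function.Injective f ∧ ∀ a b : V, T.Adj a b → Γ.Adj (f a) (f b))
    (S : Finset X) (i : ℕ) (hi : ∀ I ⊆ S, (∀ a ∈ I, ∀ b ∈ I, ¬ Γ.Adj a b) → I.card < i) :
    ((∑ u ∈ S, (nb Γ S u).card : ℕ) : ℝ) ≤ KK (Fintype.card V) c0 * i * S.card := by
  have hVne : Nonempty V := by
    by_contra hc
    rw [not_nonempty_iff] at hc
    exact hno ⟨fun a => hc.elim a, fun a => hc.elim a, fun a => hc.elim a⟩
  set s := Fintype.card V with hs
  have hs0 : 0 < s := Fintype.card_pos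
  have hi0 : 0 < i := by
    have := hi ∅ (Finset.empty_subset _) (fun a ha => absurd ha (Finset.notMem_empty a))
    simpa using this
  rcases S.eq_empty_or_nonempty with rfl | hSne
  · simp
  have hn1 : 1 ≤ S.card := Finset.card_pos.2 hSne
  set n := S.card with hn
  set q : ℝ := Real.sqrt n with hq
  have hq2 : q ^ 2 = n := Real.sq_sqrt (Nat.cast_nonneg n)
  have hq1 : 1 ≤ q := by
    rw [hq, ← Real.sqrt_one]
    exact Real.sqrt_le_sqrt (by exact_mod_cast hn1)
  have hq0 : 0 < q := by linarith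
  set δ : ℕ := 8 * s * (Nat.sqrt n + 1) with hδ
  have hδ2 : 64 * s ^ 2 * n ≤ δ ^ 2 := by
    have h1 : n ≤ (Nat.sqrt n + 1) ^ 2 := by
      have := Nat.lt_succ_sqrt n
      rw [Nat.succ_eq_add_one] at this
      nlinarith
    calc 64 * s ^ 2 * n ≤ 64 * s ^ 2 * (Nat.sqrt n + 1) ^ 2 := Nat.mul_le_mul_left _ h1
      _ = δ ^ 2 := by rw [hδ]; ring
  have hδq : (2 * (δ : ℝ)) ≤ 32 * s * q := by
    have h1 : (Nat.sqrt n : ℝ) ≤ q := by
      rw [hq]
      refine Real.le_sqrt_of_sq_le ?_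
      have := Nat.sqrt_le' n
      exact_mod_cast this
    rw [hδ]
    push_cast
    have h2 : (0:ℝ) ≤ s := Nat.cast_nonneg s
    nlinarith
  set e0 : ℝ := Real.sqrt c0 * (n * q) with he0
  have he00 : 0 ≤ e0 := by positivity
  have he02 : e0 ^ 2 = c0 * (n : ℝ) ^ 3 := by
    rw [he0, mul_pow, Real.sq_sqrt hc0, mul_pow, hq2]; ring
  -- peeling
  obtain ⟨E, hE, hchr, hle⟩ := peel s δ q e0 hq0 (prs (restr Γ S)).card (restr Γ S) le_rfl (by
    intro Γ' hΓ' hcl
    by_contra hcon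
    push Not at hcon
    have hpos : (0:ℝ) < (prs Γ').card := lt_of_le_of_lt he00 hcon
    have hpos' : 0 < (prs Γ').card := by exact_mod_cast hpos
    obtain ⟨⟨x, y⟩, hxy⟩ := Finset.card_pos.1 hpos'
    simp only [prs, mem_filter, mem_univ, true_and] at hxy
    have hsub : niv Γ' ⊆ S := by
      intro a ha
      simp only [niv, mem_filter, mem_univ, true_and] at ha
      obtain ⟨z, hz⟩ := ha
      exact (hΓ' hz).2.1
    have hnc : (niv Γ').card ≤ n := Finset.card_le_card hsub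
    have hΓle : Γ' ≤ Γ := fun a b h => (hΓ' h).1
    obtain ⟨f0, b0, b2, b3⟩ := hbase Γ' (niv Γ') hΓle (by
      intro a b h
      simp only [niv, mem_filter, mem_univ, true_and]
      exact ⟨b, h⟩) (by
      calc c0 * ((niv Γ').card : ℝ) ^ 3 ≤ c0 * (n : ℝ) ^ 3 := by
            apply mul_le_mul_of_nonneg_left _ hc0
            exact pow_le_pow_left₀ (Nat.cast_nonneg _) (by exact_mod_cast hnc) 3
        _ = e0 ^ 2 := he02.symm
        _ < ((prs Γ').card : ℝ) ^ 2 := pow_lt_pow_left₀ hcon he00 (by norm_num))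
    obtain ⟨t, ht⟩ : ∃ t, ∀ v : V, r v < t :=
      ⟨(univ.sup r) + 1, fun v => Nat.lt_succ_of_le (Finset.le_sup (f := r) (Finset.mem_univ v))⟩
    obtain ⟨f, hf⟩ := embed_clean hB (s := s) (δ := δ) le_rfl hs0 hcl
      ((Nat.mul_le_mul_left _ hnc).trans hδ2) ⟨x, y, hxy⟩ f0 (by
        intro a ha
        have := b0 a ha
        simpa [niv] using this) b2 b3 t
    exact hno ⟨f, fun a b hab => hf.inj a b (Or.inr (ht a)) (Or.inr (ht b)) hab,
      fun a b hab => hΓle (hf.adj a b (Or.inr (ht a)) (Or.inr (ht b)) hab)⟩)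
  have hpoor := poor_le s Γ S i hi E hE hchr
  have hniv : ((niv (restr Γ S)).card : ℝ) ≤ n := by
    have : niv (restr Γ S) ⊆ S := by
      intro a ha
      simp only [niv, mem_filter, mem_univ, true_and] at ha
      obtain ⟨z, hz⟩ := ha
      exact hz.2.1
    exact_mod_cast Finset.card_le_card this
  have hPhi : (Phi s (restr Γ S) : ℝ) ≤ s * (n : ℝ) ^ 2 := by exact_mod_cast Phi_le s Γ S
  set P : ℝ := ((prs (restr Γ S)).card : ℝ) with hP
  have hs' : (0:ℝ) ≤ (s:ℝ) := Nat.cast_nonneg s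
  have hP1 : P ≤ (3 * s + 1) * i * n + K1 s c0 * (n * q) := by
    have h1 : (q + 2 * (δ:ℝ)) * (niv (restr Γ S)).card ≤ (1 + 32 * s) * (n * q) := by
      calc (q + 2 * (δ:ℝ)) * (niv (restr Γ S)).card ≤ (q + 2 * (δ:ℝ)) * n :=
            mul_le_mul_of_nonneg_left hniv (by positivity)
        _ ≤ (q + 32 * s * q) * n := mul_le_mul_of_nonneg_right (by linarith) (by positivity)
        _ = (1 + 32 * s) * (n * q) := by ring
    have h2 : 128 * s / q * Phi s (restr Γ S) ≤ 128 * s ^ 2 * (n * q) := by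
      calc 128 * s / q * Phi s (restr Γ S) ≤ 128 * s / q * (s * (n : ℝ) ^ 2) :=
            mul_le_mul_of_nonneg_left hPhi (by positivity)
        _ = 128 * s ^ 2 * (n * ((n:ℝ) / q)) := by ring
        _ = 128 * s ^ 2 * (n * q) := by
            rw [show (n:ℝ) / q = q by rw [← hq2]; field_simp]
    unfold K1
    have h3 : (1 + 32 * (s:ℝ) + 128 * (s:ℝ) ^ 2 + Real.sqrt c0) * (n * q) =
      (1 + 32 * s) * (n * q) + 128 * s ^ 2 * (n * q) + e0 := by rw [he0]; ring
    rw [h3]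
    linarith
  -- Turan on S
  have htu := turan_bound Γ S i hi
  have hPsum : (∑ u ∈ S, ((S.filter (fun w => Γ.Adj u w)).card : ℝ)) = P := by
    rw [hP, prs_eq_sum]; push_cast; rfl
  rw [hPsum, ← hn] at htu
  have hn0 : (0:ℝ) < n := by exact_mod_cast hn1
  have hi1 : (1:ℝ) ≤ i := by exact_mod_cast hi0
  have hk1 := one_le_K1 s c0
  have h4 : q ^ 2 ≤ (3 * s + 2) * i ^ 2 + K1 s c0 * i * q := by
    have h5 : (n:ℝ) * n ≤ ((3 * s + 2) * i ^ 2 + K1 s c0 * i * q) * n := by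
      calc (n:ℝ) * n = (n:ℝ) ^ 2 := by ring
        _ ≤ i * (P + n) := htu
        _ ≤ i * (((3 * s + 1) * i * n + K1 s c0 * (n * q)) + n) := by
            apply mul_le_mul_of_nonneg_left _ (by positivity)
            linarith
        _ = ((3 * s + 1) * i ^ 2 + K1 s c0 * i * q + i) * n := by ring
        _ ≤ ((3 * s + 2) * i ^ 2 + K1 s c0 * i * q) * n := by
            apply mul_le_mul_of_nonneg_right _ hn0.le
            nlinarith
    rw [hq2]
    exact le_of_mul_le_mul_right h5 hn0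
  have h6 : q ≤ ((3 * s + 2) + K1 s c0) * i := by
    by_contra hcon
    push Not at hcon
    have h7 : (i:ℝ) ≤ q := by nlinarith
    nlinarith [mul_pos hq0 (sub_pos.2 hcon), mul_nonneg (mul_nonneg (by positivity : (0:ℝ) ≤ 3 * s + 2) (by positivity : (0:ℝ) ≤ (i:ℝ))) (sub_nonneg.2 h7)]
  rw [← prs_eq_sum, ← hP]
  calc P ≤ (3 * s + 1) * i * n + K1 s c0 * (n * q) := hP1
    _ ≤ (3 * s + 1) * i * n + K1 s c0 * (n * (((3 * s + 2) + K1 s c0) * i)) := by
        have : K1 s c0 * (n * q) ≤ K1 s c0 * (n * (((3 * s + 2) + K1 s c0) * i)) :=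
          mul_le_mul_of_nonneg_left (mul_le_mul_of_nonneg_left h6 hn0.le) (by linarith)
        linarith
    _ = KK s c0 * i * n := by unfold KK; ring

end Pool.Agent.Helper6.Rsl
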