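import Pool.Agent.Helper6.Rsl.DefsK

/-! # The class `Build` is contained in the class with black edges -/

set_option autoImplicit false

namespace Pool.Agent.Helper6.Rsl
open Pool.Agent.Helper14.Rsl

variable {V : Type}

/-- the graph of the tree edges -/
def treeGraph (T : SimpleGraph V) (r : V → ℕ) (A : Set V) : SimpleGraph V where
  Adj x y := TreeEdge T r A x y
  symm := ⟨fun _ _ h => h.elim Or.inr Or.inl⟩
  loopless := ⟨fun x h => by
    rcases h with h | h <;>
    · have h1 : x ∈ back T r x := by rw [h.2]; rfl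
      exact T.loopless.irrefl x h1.1⟩

theorem Build.toBuildK {T : SimpleGraph V} {r : V → ℕ} {A : Set V} (h : Build T r A) :
    BuildK T (treeGraph T r A) r A := by
  have hmem : ∀ x y : V, back T r x = {y} → y ∈ back T r x := fun x y h => by rw [h]; rfl
  refine ⟨h.inj, h.first, ?_, h.two, ?_⟩
  · rintro x y (⟨_, h1⟩ | ⟨_, h1⟩)
    · exact (hmem x y h1).1
    · exact (hmem y x h1).1.symm
  · intro v hv x hx x' hx' hne
    rcases h.rule v hv x hx x' hx' hne with hadj | ⟨y, hxy, hyx'⟩
    · have key : ∀ a b, a ∈ back T r v → b ∈ back T r v → a ≠ b → ¬ (treeGraph T r A).Adj v a := by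
        rintro a b ha hb hab (⟨_, h1⟩ | ⟨_, h1⟩)
        · rw [h1] at hb
          exact hab hb.symm
        · have h2 := (hmem a v h1).2
          have h3 := ha.2
          omega
      exact Or.inl ⟨hadj, fun hk => key x x' hx hx' hne hk.1,
        fun hk => hk.elim (fun hk => absurd hk (key x x' hx hx' hne))
          (fun hk => absurd hk (key x' x hx' hx hne.symm))⟩
    · refine Or.inr (Or.inl ⟨y, hxy, hyx'.elim Or.inr Or.inl, ?_⟩)
      rcases hxy with ⟨a1, a2⟩ | ⟨a1, a2⟩
      · rcases hyx' with ⟨b1, b2⟩ | ⟨b1, b2⟩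
        · have h2 := (hmem x y a2).2
          have h3 := (hmem y x' b2).2
          exact Or.inr ⟨by omega, a1, a2⟩
        · rcases lt_trichotomy (r x) (r x') with hlt | heq | hlt
          · exact Or.inl ⟨hlt, b1, b2⟩
          · exact absurd (h.inj heq) hne
          · exact Or.inr ⟨hlt, a1, a2⟩
      · rcases hyx' with ⟨b1, b2⟩ | ⟨b1, b2⟩
        · rw [a2] at b2
          exact absurd (Set.singleton_injective b2) hne
        · have h2 := (hmem y x a2).2
          have h3 := (hmem x' y b2).2
          exact Or.inl ⟨by omega, b1, b2⟩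

end Pool.Agent.Helper6.Rsl
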