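import Pool.Agent.Helper14.Rsl.Defs

/-! # The class of graphs with black edges (MP_21639e_co) -/

set_option autoImplicit false

namespace Pool.Agent.Helper6.Rsl
open Pool.Agent.Helper14.Rsl (back)

/-- `T` is built from its induced subgraph on `A` by adding vertices one by one, in the order of
the ranks; the edges of `K ≤ T` are *black*. Every new vertex `v` has at most two earlier
neighbours. If it has two earlier neighbours `x` and `x'`, then
* either `x` and `x'` are adjacent, at most one of the edges `v x`, `v x'` is black, and one of them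
  is black only if the edge `x x'` is black;
* or `x` and `x'` have a common black neighbour `y` such that the later one of `x`, `x'` is outside
  `A` and has `y` as its only earlier neighbour;
* or `x` and `x'` have two common black neighbours `y` and `y'` such that the later one of `y`, `y'`
  is outside `A` and has only one earlier neighbour, which is `x` or `x'`. -/
structure BuildK {V : Type} (T K : SimpleGraph V) (r : V → ℕ) (A : Set V) : Prop where
  inj : Function.Injective r
  first : ∀ a ∈ A, ∀ v ∉ A, r a < r v
  le : K ≤ T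
  two : ∀ v ∉ A, (back T r v).encard ≤ 2
  rule : ∀ v ∉ A, ∀ x ∈ back T r v, ∀ x' ∈ back T r v, x ≠ x' →
    (T.Adj x x' ∧ ¬ (K.Adj v x ∧ K.Adj v x') ∧ (K.Adj v x ∨ K.Adj v x' → K.Adj x x')) ∨
    (∃ y, K.Adj x y ∧ K.Adj x' y ∧
      ((r x < r x' ∧ x' ∉ A ∧ back T r x' = {y}) ∨ (r x' < r x ∧ x ∉ A ∧ back T r x = {y}))) ∨
    ∃ y y', K.Adj x y ∧ K.Adj x' y ∧ K.Adj x y' ∧ K.Adj x' y' ∧ r y < r y' ∧ y' ∉ A ∧
      (back T r y' = {x} ∨ back T r y' = {x'})

end Pool.Agent.Helper6.Rsl
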