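import Pool.Agent.Helper6.Rsl.Peel
import Pool.Agent.Helper14.Rsl.Defs

/-! # Embedding a graph of the class into a clean graph -/

set_option autoImplicit false
open Classical Finset

namespace Pool.Agent.Helper6.Rsl
open Pool.Agent.Helper30.TwoTree (prs tri restr nb)
open Pool.Agent.Helper14.Rsl

variable {V X : Type} [Fintype V] [Fintype X]

omit [Fintype V] in
theorem TreeEdge.symm {T : SimpleGraph V} {r : V → ℕ} {A : Set V} {x y : V} (h : TreeEdge T r A x y) :
    TreeEdge T r A y x := by
  rcases h with h | h
  · exact Or.inr h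
  · exact Or.inl h

/-- the invariants of the greedy embedding -/
structure Inv (T : SimpleGraph V) (r : V → ℕ) (A : Set V) (s : ℕ) (Γ : SimpleGraph X) (P : V → Prop)
    (f : V → X) : Prop where
  inj : ∀ a b, P a → P b → f a = f b → a = b
  ni : ∀ a, P a → ∃ z, Γ.Adj (f a) z
  adj : ∀ a b, P a → P b → T.Adj a b → Γ.Adj (f a) (f b)
  few : ∀ u w, P u → P w → TreeEdge T r A u w →
    8 * s * (ltp s Γ (f u) (f w)).card ≤ (nbr Γ (f u)).card
  heavy : ∀ u w w', P u → P w → P w' → w ≠ w' → TreeEdge T r A u w → TreeEdge T r A u w' →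
    s ≤ (cn Γ (f w) (f w')).card

omit [Fintype V] in
theorem cn_comm (Γ : SimpleGraph X) (x y : X) : cn Γ x y = cn Γ y x := by
  ext z
  simp only [cn, mem_filter, mem_univ, true_and]
  exact and_comm

omit [Fintype V] in
/-- adding one vertex -/
theorem Inv.add {T : SimpleGraph V} {r : V → ℕ} {A : Set V} {s : ℕ} {Γ : SimpleGraph X} {P : V → Prop}
    {f : V → X} (h : Inv T r A s Γ P f) (v : V) (z : X) (hv : ¬ P v)
    (hvA : v ∉ A) (hlt : ∀ a, P a → r a < r v)
    (z1 : ∀ a, P a → f a ≠ z) (z2 : ∃ y, Γ.Adj z y) (z3 : ∀ a, P a → T.Adj v a → Γ.Adj z (f a))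
    (z4 : ∀ u, P u → back T r v = {u} → 8 * s * (ltp s Γ (f u) z).card ≤ (nbr Γ (f u)).card ∧
      8 * s * (ltp s Γ z (f u)).card ≤ (nbr Γ z).card ∧
      ∀ w, P w → TreeEdge T r A u w → s ≤ (cn Γ (f w) z).card) :
    Inv T r A s Γ (fun a => P a ∨ a = v) (Function.update f v z) := by
  have hne : ∀ a, P a → a ≠ v := fun a ha hav => hv (hav ▸ ha)
  have hT : ∀ u, P u → TreeEdge T r A u v → back T r v = {u} := by
    rintro u hu (⟨_, h1⟩ | ⟨_, h1⟩)
    · exfalso
      have h2 : v ∈ back T r u := by rw [h1]; rfl
      have h3 := h2.2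
      have h4 := hlt u hu
      omega
    · exact h1
  have hTv : ¬ TreeEdge T r A v v := by
    rintro (⟨_, h1⟩ | ⟨_, h1⟩) <;>
    · have h2 : v ∈ back T r v := by rw [h1]; rfl
      exact T.loopless.irrefl _ h2.1
  refine ⟨?_, ?_, ?_, ?_, ?_⟩
  · rintro a b (ha | rfl) (hb | rfl) hab
    · rw [Function.update_of_ne (hne a ha), Function.update_of_ne (hne b hb)] at hab
      exact h.inj a b ha hb hab
    · rw [Function.update_of_ne (hne a ha), Function.update_self] at hab
      exact absurd hab (z1 a ha)
    · rw [Function.update_self, Function.update_of_ne (hne b hb)] at hab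
      exact absurd hab.symm (z1 b hb)
    · rfl
  · rintro a (ha | rfl)
    · rw [Function.update_of_ne (hne a ha)]; exact h.ni a ha
    · rw [Function.update_self]; exact z2
  · rintro a b (ha | rfl) (hb | rfl) hab
    · rw [Function.update_of_ne (hne a ha), Function.update_of_ne (hne b hb)]
      exact h.adj a b ha hb hab
    · rw [Function.update_of_ne (hne a ha), Function.update_self]
      exact (z3 a ha hab.symm).symm
    · rw [Function.update_self, Function.update_of_ne (hne b hb)]
      exact z3 b hb hab
    · exact absurd hab (T.loopless.irrefl _)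
  · rintro u w (hu | rfl) (hw | rfl) huw
    · rw [Function.update_of_ne (hne u hu), Function.update_of_ne (hne w hw)]
      exact h.few u w hu hw huw
    · rw [Function.update_of_ne (hne u hu), Function.update_self]
      exact (z4 u hu (hT u hu huw)).1
    · rw [Function.update_self, Function.update_of_ne (hne w hw)]
      exact (z4 w hw (hT w hw huw.symm)).2.1
    · exact absurd huw hTv
  · rintro u w w' (hu | rfl) (hw | rfl) (hw' | rfl) hww h1 h2
    · rw [Function.update_of_ne (hne w hw), Function.update_of_ne (hne w' hw')]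
      exact h.heavy u w w' hu hw hw' hww h1 h2
    · rw [Function.update_of_ne (hne w hw), Function.update_self]
      exact (z4 u hu (hT u hu h2)).2.2 w hw h1
    · rw [Function.update_self, Function.update_of_ne (hne w' hw'), cn_comm]
      exact (z4 u hu (hT u hu h1)).2.2 w' hw' h2
    · exact absurd rfl hww
    · exfalso
      have e1 := hT w hw h1.symm
      have e2 := hT w' hw' h2.symm
      rw [e1] at e2
      exact hww (Set.singleton_injective e2)
    · exact absurd h2 hTv
    · exact absurd h1 hTv
    · exact absurd h1 hTv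

omit [Fintype V] in
/-- the light degrees of `a` seen from its neighbours -/
theorem sum_ltp_le (s : ℕ) (Γ : SimpleGraph X) (a : X) :
    ∑ z ∈ nbr Γ a, (ltp s Γ z a).card ≤ s * (niv Γ).card := by
  have h1 : ∑ z ∈ nbr Γ a, (ltp s Γ z a).card =
      ((nbr Γ a).sigma (fun z => ltp s Γ z a)).card := (Finset.card_sigma _ _).symm
  rw [h1]
  have h2 : ((nbr Γ a).sigma (fun z => ltp s Γ z a)).card ≤
      (((niv Γ).filter (fun x => (cn Γ a x).card < s)).sigma (fun x => cn Γ a x)).card := by
    refine Finset.card_le_card_of_injOn (fun p => ⟨p.2, p.1⟩) ?_ ?_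
    · rintro ⟨z, x⟩ hp
      simp only [nbr, ltp, cn, niv, coe_sigma, Set.mem_sigma_iff, mem_coe, mem_filter, mem_univ, true_and] at hp ⊢
      exact ⟨⟨⟨z, hp.2.1.symm⟩, hp.2.2.2⟩, hp.1, hp.2.1.symm⟩
    · rintro ⟨z, x⟩ _ ⟨z', x'⟩ _ h
      simp only [Sigma.mk.injEq, heq_eq_eq] at h
      rw [h.1, h.2]
  refine h2.trans ?_
  rw [Finset.card_sigma]
  calc ∑ x ∈ (niv Γ).filter (fun x => (cn Γ a x).card < s), (cn Γ a x).card
      ≤ ∑ x ∈ (niv Γ).filter (fun x => (cn Γ a x).card < s), s :=
        Finset.sum_le_sum fun x hx => (Finset.mem_filter.1 hx).2.le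
    _ = ((niv Γ).filter (fun x => (cn Γ a x).card < s)).card * s := by
        rw [Finset.sum_const, smul_eq_mul]
    _ ≤ (niv Γ).card * s := Nat.mul_le_mul_right _ (Finset.card_le_card (Finset.filter_subset _ _))
    _ = s * (niv Γ).card := Nat.mul_comm _ _

/-- the choice of a child -/
theorem exists_child {T : SimpleGraph V} {r : V → ℕ} {A : Set V} {s δ : ℕ} {Γ : SimpleGraph X}
    {P : V → Prop} {f : V → X} (h : Inv T r A s Γ P f) (hs : Fintype.card V ≤ s) (hs0 : 0 < s)
    (hcl : Clean s δ Γ) (hδ : 64 * s ^ 2 * (niv Γ).card ≤ δ ^ 2) (u : V) (hu : P u) :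
    ∃ z, (∀ a, P a → f a ≠ z) ∧ Γ.Adj (f u) z ∧
      8 * s * (ltp s Γ (f u) z).card ≤ (nbr Γ (f u)).card ∧
      8 * s * (ltp s Γ z (f u)).card ≤ (nbr Γ z).card ∧
      ∀ w, P w → TreeEdge T r A u w → s ≤ (cn Γ (f w) z).card := by
  have hni := h.ni u hu
  obtain ⟨hD1, hD2⟩ := hcl.2 (f u) hni
  set a := f u with ha
  set N := nbr Γ a with hN
  set D := N.card with hD
  -- sizes
  have hniv : 1 ≤ (niv Γ).card := Finset.card_pos.2 ⟨a, by simpa [niv] using hni⟩
  have h8s : 8 * s ≤ δ := by
    by_contra hc
    push Not at hc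
    have h1 : δ ^ 2 < (8 * s) ^ 2 := Nat.pow_lt_pow_left hc (by norm_num)
    have h2 : (8 * s) ^ 2 * 1 ≤ 64 * s ^ 2 * (niv Γ).card := by
      rw [show (8 * s) ^ 2 = 64 * s ^ 2 by ring]
      exact Nat.mul_le_mul_left _ hniv
    omega
  have hD0 : 0 < D := by omega
  -- the bad sets
  set U : Finset X := (univ.filter (fun b : V => P b)).image f with hU
  have hUc : 8 * U.card ≤ D := by
    have h1 : U.card ≤ s := (Finset.card_image_le.trans (Finset.card_le_univ _)).trans hs
    omega
  set B1 : Finset X := N.filter (fun z => D < 8 * s * (ltp s Γ a z).card) with hB1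
  have hB1c : 16 * B1.card ≤ D := by
    have h1 : B1.card * D ≤ 8 * s * lt s Γ a := by
      calc B1.card * D = ∑ z ∈ B1, D := by rw [Finset.sum_const, smul_eq_mul]
        _ ≤ ∑ z ∈ B1, 8 * s * (ltp s Γ a z).card :=
            Finset.sum_le_sum fun z hz => (Finset.mem_filter.1 hz).2.le
        _ ≤ ∑ z ∈ N, 8 * s * (ltp s Γ a z).card :=
            Finset.sum_le_sum_of_subset (Finset.filter_subset _ _)
        _ = 8 * s * lt s Γ a := by rw [lt, Finset.mul_sum]
    have h2 : 16 * B1.card * D ≤ D * D := by
      calc 16 * B1.card * D = 16 * (B1.card * D) := by ring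
        _ ≤ 16 * (8 * s * lt s Γ a) := Nat.mul_le_mul_left _ h1
        _ = 128 * s * lt s Γ a := by ring
        _ ≤ D ^ 2 := hD2
        _ = D * D := by ring
    exact Nat.le_of_mul_le_mul_right h2 hD0
  set B2 : Finset X := (univ.filter (fun w : V => P w ∧ TreeEdge T r A u w)).biUnion
    (fun w => ltp s Γ a (f w)) with hB2
  have hB2c : 8 * B2.card ≤ D := by
    have h1 : B2.card ≤ ∑ w ∈ univ.filter (fun w : V => P w ∧ TreeEdge T r A u w),
        (ltp s Γ a (f w)).card := Finset.card_biUnion_le
    have h2 : 8 * s * B2.card ≤ s * D := by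
      calc 8 * s * B2.card ≤ 8 * s * ∑ w ∈ univ.filter (fun w : V => P w ∧ TreeEdge T r A u w),
            (ltp s Γ a (f w)).card := Nat.mul_le_mul_left _ h1
        _ = ∑ w ∈ univ.filter (fun w : V => P w ∧ TreeEdge T r A u w),
            8 * s * (ltp s Γ a (f w)).card := by rw [Finset.mul_sum]
        _ ≤ ∑ w ∈ univ.filter (fun w : V => P w ∧ TreeEdge T r A u w), D := by
            refine Finset.sum_le_sum fun w hw => ?_
            simp only [mem_filter, mem_univ, true_and] at hw
            exact h.few u w hu hw.1 hw.2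
        _ = (univ.filter (fun w : V => P w ∧ TreeEdge T r A u w)).card * D := by
            rw [Finset.sum_const, smul_eq_mul]
        _ ≤ s * D := Nat.mul_le_mul_right _ ((Finset.card_le_univ _).trans hs)
    have h3 : s * (8 * B2.card) ≤ s * D := by
      rw [show s * (8 * B2.card) = 8 * s * B2.card by ring]; exact h2
    exact Nat.le_of_mul_le_mul_left h3 hs0
  set B3 : Finset X := N.filter (fun z => (nbr Γ z).card < 8 * s * (ltp s Γ z a).card) with hB3
  have hB3c : 8 * B3.card ≤ D := by
    have h1 : B3.card * δ ≤ 8 * s * (s * (niv Γ).card) := by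
      calc B3.card * δ = ∑ z ∈ B3, δ := by rw [Finset.sum_const, smul_eq_mul]
        _ ≤ ∑ z ∈ B3, 8 * s * (ltp s Γ z a).card := by
            refine Finset.sum_le_sum fun z hz => ?_
            rw [hB3, mem_filter] at hz
            have hza : Γ.Adj a z := by
              have := hz.1
              rw [hN] at this
              simpa [nbr] using this
            have h2 := (hcl.2 z ⟨a, hza.symm⟩).1
            omega
        _ ≤ ∑ z ∈ N, 8 * s * (ltp s Γ z a).card :=
            Finset.sum_le_sum_of_subset (Finset.filter_subset _ _)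
        _ = 8 * s * ∑ z ∈ N, (ltp s Γ z a).card := by rw [Finset.mul_sum]
        _ ≤ 8 * s * (s * (niv Γ).card) := Nat.mul_le_mul_left _ (sum_ltp_le s Γ a)
    have h2 : 8 * B3.card * δ ≤ δ * δ := by
      calc 8 * B3.card * δ = 8 * (B3.card * δ) := by ring
        _ ≤ 8 * (8 * s * (s * (niv Γ).card)) := Nat.mul_le_mul_left _ h1
        _ = 64 * s ^ 2 * (niv Γ).card := by ring
        _ ≤ δ ^ 2 := hδ
        _ = δ * δ := by ring
    have h3 : 8 * B3.card ≤ δ := Nat.le_of_mul_le_mul_right h2 (by omega)
    omega
  obtain ⟨z, hzN, hz⟩ : ∃ z ∈ N, z ∉ U ∪ B1 ∪ B2 ∪ B3 := by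
    by_contra hcon
    push Not at hcon
    have h1 := Finset.card_le_card (show N ⊆ _ from hcon)
    have h2 := Finset.card_union_le (U ∪ B1 ∪ B2) B3
    have h3 := Finset.card_union_le (U ∪ B1) B2
    have h4 := Finset.card_union_le U B1
    omega
  simp only [mem_union, not_or] at hz
  obtain ⟨⟨⟨hzU, hzB1⟩, hzB2⟩, hzB3⟩ := hz
  have hfz : ∀ b, P b → f b ≠ z := by
    intro b hb hbz
    exact hzU (Finset.mem_image.2 ⟨b, by simpa using hb, hbz⟩)
  refine ⟨z, hfz, by simpa [hN, nbr] using hzN, ?_, ?_, ?_⟩
  · by_contra hc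
    push Not at hc
    exact hzB1 (Finset.mem_filter.2 ⟨hzN, hc⟩)
  · by_contra hc
    push Not at hc
    exact hzB3 (Finset.mem_filter.2 ⟨hzN, hc⟩)
  · intro w hw huw
    by_contra hc
    push Not at hc
    refine hzB2 (Finset.mem_biUnion.2 ⟨w, by simpa using ⟨hw, huw⟩, ?_⟩)
    exact Finset.mem_filter.2 ⟨hzN, hfz w hw, hc⟩

/-- the embedding -/
theorem embed_clean {T : SimpleGraph V} {r : V → ℕ} {A : Set V} (hB : Build T r A) {s δ : ℕ}
    {Γ : SimpleGraph X} (hs : Fintype.card V ≤ s) (hs0 : 0 < s) (hcl : Clean s δ Γ)
    (hδ : 64 * s ^ 2 * (niv Γ).card ≤ δ ^ 2) (hne : ∃ x y, Γ.Adj x y) (f0 : V → X)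
    (b1 : ∀ a ∈ A, ∃ z, Γ.Adj (f0 a) z) (b2 : ∀ a ∈ A, ∀ b ∈ A, f0 a = f0 b → a = b)
    (b3 : ∀ a ∈ A, ∀ b ∈ A, T.Adj a b → Γ.Adj (f0 a) (f0 b)) (t : ℕ) :
    ∃ f : V → X, Inv T r A s Γ (fun a => a ∈ A ∨ r a < t) f := by
  obtain ⟨x0, y0, hxy0⟩ := hne
  have h8s : 8 * s ≤ δ := by
    have hniv : 1 ≤ (niv Γ).card := Finset.card_pos.2 ⟨x0, by simpa [niv] using ⟨y0, hxy0⟩⟩
    by_contra hc
    push Not at hc
    have h1 : δ ^ 2 < (8 * s) ^ 2 := Nat.pow_lt_pow_left hc (by norm_num)
    have h2 : (8 * s) ^ 2 * 1 ≤ 64 * s ^ 2 * (niv Γ).card := by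
      rw [show (8 * s) ^ 2 = 64 * s ^ 2 by ring]
      exact Nat.mul_le_mul_left _ hniv
    omega
  induction t with
  | zero =>
    refine ⟨f0, ⟨?_, ?_, ?_, ?_, ?_⟩⟩
    · rintro a b (ha | ha) (hb | hb) hab
      · exact b2 a ha b hb hab
      all_goals omega
    · rintro a (ha | ha)
      · exact b1 a ha
      · omega
    · rintro a b (ha | ha) (hb | hb) hab
      · exact b3 a ha b hb hab
      all_goals omega
    · rintro u w (hu | hu) (hw | hw) huw
      · rcases huw with huw | huw
        · exact absurd hu huw.1
        · exact absurd hw huw.1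
      all_goals omega
    · rintro u w w' (hu | hu) (hw | hw) _ _ huw _
      · rcases huw with huw | huw
        · exact absurd hu huw.1
        · exact absurd hw huw.1
      all_goals omega
  | succ t ih =>
    obtain ⟨f, hf⟩ := ih
    by_cases hv : ∃ v, v ∉ A ∧ r v = t
    · obtain ⟨v, hvA, hv⟩ := hv
      set P : V → Prop := fun a => a ∈ A ∨ r a < t with hP
      have hPv : ¬ P v := by
        rintro (h | h)
        · exact hvA h
        · omega
      have hlt : ∀ a, P a → r a < r v := by
        rintro a (h | h)
        · exact hB.first a h v hvA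
        · omega
      have hPlt : ∀ a, r a < t → P a := fun a h => Or.inr h
      have hPeq : (fun a => a ∈ A ∨ r a < t + 1) = fun a => P a ∨ a = v := by
        ext a
        constructor
        · rintro (h | h)
          · exact Or.inl (Or.inl h)
          · by_cases hav : r a = t
            · exact Or.inr (hB.inj (hav.trans hv.symm))
            · exact Or.inl (Or.inr (by omega))
        · rintro ((h | h) | rfl)
          · exact Or.inl h
          · exact Or.inr (by omega)
          · exact Or.inr (by omega)
      rw [hPeq]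
      have hback : ∀ a, P a → T.Adj v a → a ∈ back T r v := fun a ha hva => ⟨hva, hlt a ha⟩
      have hback' : ∀ a, a ∈ back T r v → P a := fun a ha => Or.inr (by have := ha.2; omega)
      -- used vertices
      set U : Finset X := (univ.filter (fun b : V => P b)).image f with hU
      have hUc : U.card < s := by
        refine lt_of_le_of_lt Finset.card_image_le (lt_of_lt_of_le ?_ hs)
        rw [← Finset.card_univ]
        refine Finset.card_lt_card ⟨Finset.filter_subset _ _, ?_⟩
        intro h
        have := h (Finset.mem_univ v)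
        exact hPv (by simpa using this)
      have hUf : ∀ z, z ∉ U → ∀ a, P a → f a ≠ z := by
        intro z hz a ha haz
        exact hz (Finset.mem_image.2 ⟨a, by simpa using ha, haz⟩)
      by_cases h0 : ∃ x, x ∈ back T r v
      · obtain ⟨x, hx⟩ := h0
        by_cases h1 : ∃ x', x' ∈ back T r v ∧ x ≠ x'
        · -- two earlier neighbours
          obtain ⟨x', hx', hxx'⟩ := h1
          have hcn : s ≤ (cn Γ (f x) (f x')).card := by
            rcases hB.rule v hvA x hx x' hx' hxx' with hadj | ⟨y, hxy, hyx'⟩
            · exact hcl.1 _ _ (hf.adj x x' (hback' x hx) (hback' x' hx') hadj)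
            · have hPy : P y := by
                rcases hxy with h2 | h2
                · have h3 : y ∈ back T r x := by rw [h2.2]; rfl
                  have h4 := h3.2
                  have h5 := hx.2
                  exact hPlt y (by omega)
                · rcases hyx' with h3 | h3
                  · exfalso
                    have h4 := h2.2.symm.trans h3.2
                    exact hxx' (Set.singleton_injective h4)
                  · have h4 : y ∈ back T r x' := by rw [h3.2]; rfl
                    have h5 := h4.2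
                    have h6 := hx'.2
                    exact hPlt y (by omega)
              exact hf.heavy y x x' hPy (hback' x hx) (hback' x' hx') hxx' hxy.symm hyx'
          obtain ⟨z, hz, hzU⟩ : ∃ z ∈ cn Γ (f x) (f x'), z ∉ U := by
            by_contra hcon
            push Not at hcon
            have := Finset.card_le_card (show _ ⊆ U from hcon)
            omega
          simp only [cn, mem_filter, mem_univ, true_and] at hz
          have honly : ∀ c, c ∈ back T r v → c = x ∨ c = x' := by
            intro c hc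
            by_contra hcon
            push Not at hcon
            have h3 : ({c, x, x'} : Set V) ⊆ back T r v := by
              intro y hy
              simp only [Set.mem_insert_iff, Set.mem_singleton_iff] at hy
              rcases hy with rfl | rfl | rfl
              · exact hc
              · exact hx
              · exact hx'
            have h4 := (Set.encard_le_encard h3).trans (hB.two v hvA)
            rw [Set.encard_insert_of_notMem (by simp [hcon.1, hcon.2]), Set.encard_pair hxx'] at h4
            norm_num at h4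
          refine ⟨_, hf.add v z hPv hvA hlt (hUf z hzU) ⟨_, hz.1.symm⟩ ?_ ?_⟩
          · intro a ha hva
            rcases honly a (hback a ha hva) with rfl | rfl
            · exact hz.1.symm
            · exact hz.2.symm
          · intro u _ hu
            exfalso
            rw [hu] at hx hx'
            exact hxx' (hx.trans hx'.symm)
        · -- one earlier neighbour
          push Not at h1
          have hbx : back T r v = {x} := by
            ext c
            constructor
            · intro hc; exact (h1 c hc).symm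
            · intro hc; rw [hc]; exact hx
          obtain ⟨z, c1, c2, c3, c4, c5⟩ := exists_child hf hs hs0 hcl hδ x (hback' x hx)
          refine ⟨_, hf.add v z hPv hvA hlt c1 ⟨_, c2.symm⟩ ?_ ?_⟩
          · intro a ha hva
            rw [← h1 a (hback a ha hva)]
            exact c2.symm
          · intro u _ hu
            have hux : u = x := by
              rw [hbx] at hu
              exact (Set.singleton_injective hu).symm
            rw [hux]
            exact ⟨c3, c4, c5⟩
      · -- no earlier neighbour
        push Not at h0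
        have hd0 := (hcl.2 x0 ⟨y0, hxy0⟩).1
        obtain ⟨z, hz, hzU⟩ : ∃ z ∈ nbr Γ x0, z ∉ U := by
          by_contra hcon
          push Not at hcon
          have := Finset.card_le_card (show _ ⊆ U from hcon)
          omega
        simp only [nbr, mem_filter, mem_univ, true_and] at hz
        refine ⟨_, hf.add v z hPv hvA hlt (hUf z hzU) ⟨x0, hz.symm⟩ ?_ ?_⟩
        · intro a ha hva
          exact absurd (hback a ha hva) (h0 a)
        · intro u _ hu
          exact absurd (by rw [hu]; rfl) (h0 u)
    · push Not at hv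
      refine ⟨f, ?_⟩
      have hPeq : (fun a => a ∈ A ∨ r a < t + 1) = fun a => a ∈ A ∨ r a < t := by
        ext a
        constructor
        · rintro (h | h)
          · exact Or.inl h
          · by_cases haA : a ∈ A
            · exact Or.inl haA
            · have := hv a haA
              exact Or.inr (by omega)
        · rintro (h | h)
          · exact Or.inl h
          · exact Or.inr (by omega)
      rw [hPeq]
      exact hf

end Pool.Agent.Helper6.Rsl
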