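import Pool.Agent.Helper6.Rsl.PeelK
import Pool.Agent.Helper6.Rsl.Emb
import Pool.Agent.Helper6.Rsl.DefsK

/-! # Embedding a graph with black edges into a clean pair -/

set_option autoImplicit false
open Classical Finset

namespace Pool.Agent.Helper6.Rsl
open Pool.Agent.Helper30.TwoTree (prs tri restr nb)
open Pool.Agent.Helper14.Rsl (back)

variable {V X : Type} [Fintype V] [Fintype X]

/-- the invariants of the greedy embedding -/
structure InvK (T K : SimpleGraph V) (r : V → ℕ) (A : Set V) (s : ℕ) (Γ M : SimpleGraph X)
    (P : V → Prop) (f : V → X) : Prop where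
  inj : ∀ a b, P a → P b → f a = f b → a = b
  ni : ∀ a, P a → ∃ z, Γ.Adj (f a) z
  adj : ∀ a b, P a → P b → T.Adj a b → Γ.Adj (f a) (f b)
  blk : ∀ a b, P a → P b → K.Adj a b → M.Adj (f a) (f b)
  heavy : ∀ x x' y, P x → P x' → K.Adj x y → K.Adj x' y → r x < r x' → x' ∉ A → back T r x' = {y} →
    s ≤ (cn M (f x) (f x')).card
  heavy2 : ∀ x y y', P x → P y → P y' → K.Adj x y → r y < r y' → y' ∉ A → back T r y' = {x} →
    ∀ d ∈ cn M (f y) (f y'), f x ≠ d → s ≤ (cn M (f x) d).card

omit [Fintype V] in
/-- adding one vertex -/
theorem InvK.add {T K : SimpleGraph V} {r : V → ℕ} {A : Set V} {s : ℕ} {Γ M : SimpleGraph X}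
    {P : V → Prop} {f : V → X} (h : InvK T K r A s Γ M P f) (v : V) (z : X) (hv : ¬ P v)
    (hlt : ∀ a, P a → r a < r v)
    (z1 : ∀ a, P a → f a ≠ z) (z2 : ∃ y, Γ.Adj z y) (z3 : ∀ a, P a → T.Adj v a → Γ.Adj z (f a))
    (z3' : ∀ a, P a → K.Adj v a → M.Adj z (f a))
    (z4 : ∀ u, P u → back T r v = {u} → ∀ w, P w → K.Adj w u → s ≤ (cn M (f w) z).card)
    (z5 : ∀ u, P u → back T r v = {u} → ∀ w, P w → K.Adj w u →
      ∀ d ∈ cn M (f w) z, f u ≠ d → s ≤ (cn M (f u) d).card)
    (hPb : ∀ u, back T r v = {u} → P u) :
    InvK T K r A s Γ M (fun a => P a ∨ a = v) (Function.update f v z) := by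
  have hne : ∀ a, P a → a ≠ v := fun a ha hav => hv (hav ▸ ha)
  refine ⟨?_, ?_, ?_, ?_, ?_, ?_⟩
  · rintro a b (ha | rfl) (hb | rfl) hab
    · rw [Function.update_of_ne (hne a ha), Function.update_of_ne (hne b hb)] at hab
      exact h.inj a b ha hb hab
    · rw [Function.update_of_ne (hne a ha), Function.update_self] at hab
      exact absurd hab (z1 a ha)
    · rw [Function.update_self, Function.update_of_ne (hne b hb)] at hab
      exact absurd hab.symm (z1 b hb)
    · rfl
  · rintro a (ha | rfl)
    · rw [Function.update_of_ne (hne a ha)]; exact h.ni a ha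
    · rw [Function.update_self]; exact z2
  · rintro a b (ha | rfl) (hb | rfl) hab
    · rw [Function.update_of_ne (hne a ha), Function.update_of_ne (hne b hb)]
      exact h.adj a b ha hb hab
    · rw [Function.update_of_ne (hne a ha), Function.update_self]
      exact (z3 a ha hab.symm).symm
    · rw [Function.update_self, Function.update_of_ne (hne b hb)]
      exact z3 b hb hab
    · exact absurd hab (T.loopless.irrefl _)
  · rintro a b (ha | rfl) (hb | rfl) hab
    · rw [Function.update_of_ne (hne a ha), Function.update_of_ne (hne b hb)]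
      exact h.blk a b ha hb hab
    · rw [Function.update_of_ne (hne a ha), Function.update_self]
      exact (z3' a ha hab.symm).symm
    · rw [Function.update_self, Function.update_of_ne (hne b hb)]
      exact z3' b hb hab
    · exact absurd hab (K.loopless.irrefl _)
  · rintro x x' y (hx | rfl) (hx' | rfl) hxy hx'y hr hA hb
    · rw [Function.update_of_ne (hne x hx), Function.update_of_ne (hne x' hx')]
      exact h.heavy x x' y hx hx' hxy hx'y hr hA hb
    · rw [Function.update_of_ne (hne x hx), Function.update_self]
      exact z4 y (hPb y hb) hb x hx hxy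
    · have := hlt x' hx'
      omega
    · omega
  · rintro x y y' hx hy (hy' | rfl) hxy hr hA hb
    · have hxb : x ∈ back T r y' := by rw [hb]; rfl
      have hx1 := hxb.2
      have hy1 := hlt y' hy'
      have hxP : P x := hx.resolve_right (fun h => by rw [h] at hx1; omega)
      have hyP : P y := hy.resolve_right (fun h => by rw [h] at hr; omega)
      rw [Function.update_of_ne (hne x hxP), Function.update_of_ne (hne y hyP),
        Function.update_of_ne (hne y' hy')]
      exact h.heavy2 x y y' hxP hyP hy' hxy hr hA hb
    · have hxb : x ∈ back T r y' := by rw [hb]; rfl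
      have hx1 := hxb.2
      have hxP : P x := hx.resolve_right (fun h => by rw [h] at hx1; omega)
      have hyP : P y := hy.resolve_right (fun h => by rw [h] at hr; omega)
      rw [Function.update_of_ne (hne x hxP), Function.update_of_ne (hne y hyP),
        Function.update_self]
      exact z5 x hxP hb y hyP hxy.symm

/-- the choice of a child -/
theorem exists_childK {T K : SimpleGraph V} {r : V → ℕ} {A : Set V} {s δ : ℕ} {Γ M : SimpleGraph X}
    {P : V → Prop} {f : V → X} (h : InvK T K r A s Γ M P f) (hs : Fintype.card V ≤ s) (hs0 : 0 < s)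
    (hcl : CleanK s δ Γ M) (hδ : 2 * s < δ) (u : V) (hu : P u) :
    ∃ z, (∀ a, P a → f a ≠ z) ∧ M.Adj (f u) z ∧ (∀ w, P w → K.Adj w u → s ≤ (cn M (f w) z).card) ∧
      ∀ w, P w → K.Adj w u → ∀ d ∈ cn M (f w) z, f u ≠ d → s ≤ (cn M (f u) d).card := by
  have hni := h.ni u hu
  have hD1 := hcl.deg (f u) hni
  set a := f u with ha
  set N := nbr M a with hN
  set D := N.card with hD
  set U : Finset X := (univ.filter (fun b : V => P b)).image f with hU
  have hUc : U.card ≤ s := (Finset.card_image_le.trans (Finset.card_le_univ _)).trans hs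
  set B2 : Finset X := (univ.filter (fun w : V => P w ∧ K.Adj w u)).biUnion
    (fun w => bp s M a (f w)) with hB2
  have hB2c : 2 * B2.card ≤ D := by
    have h1 : B2.card ≤ ∑ w ∈ univ.filter (fun w : V => P w ∧ K.Adj w u),
        (bp s M a (f w)).card := Finset.card_biUnion_le
    have h2 : 2 * s * B2.card ≤ s * D := by
      calc 2 * s * B2.card ≤ 2 * s * ∑ w ∈ univ.filter (fun w : V => P w ∧ K.Adj w u),
            (bp s M a (f w)).card := Nat.mul_le_mul_left _ h1
        _ = ∑ w ∈ univ.filter (fun w : V => P w ∧ K.Adj w u),
            2 * s * (bp s M a (f w)).card := by rw [Finset.mul_sum]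
        _ ≤ ∑ w ∈ univ.filter (fun w : V => P w ∧ K.Adj w u), D := by
            refine Finset.sum_le_sum fun w hw => ?_
            simp only [mem_filter, mem_univ, true_and] at hw
            exact hcl.few (f w) a (h.blk w u hw.1 hu hw.2)
        _ = (univ.filter (fun w : V => P w ∧ K.Adj w u)).card * D := by
            rw [Finset.sum_const, smul_eq_mul]
        _ ≤ s * D := Nat.mul_le_mul_right _ ((Finset.card_le_univ _).trans hs)
    have h3 : s * (2 * B2.card) ≤ s * D := by
      rw [show s * (2 * B2.card) = 2 * s * B2.card by ring]; exact h2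
    exact Nat.le_of_mul_le_mul_left h3 hs0
  obtain ⟨z, hzN, hz⟩ : ∃ z ∈ N, z ∉ U ∪ B2 := by
    by_contra hcon
    push Not at hcon
    have h1 := Finset.card_le_card (show N ⊆ _ from hcon)
    have h2 := Finset.card_union_le U B2
    omega
  simp only [mem_union, not_or] at hz
  obtain ⟨hzU, hzB2⟩ := hz
  have hfz : ∀ b, P b → f b ≠ z := by
    intro b hb hbz
    exact hzU (Finset.mem_image.2 ⟨b, by simpa using hb, hbz⟩)
  refine ⟨z, hfz, by simpa [hN, nbr] using hzN, ?_, ?_⟩
  · intro w hw huw
    by_contra hc
    push Not at hc
    refine hzB2 (Finset.mem_biUnion.2 ⟨w, by simpa using ⟨hw, huw⟩, ?_⟩)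
    exact Finset.mem_filter.2 ⟨hzN, hfz w hw, Or.inl hc⟩
  · intro w hw huw d hd had
    by_contra hc
    push Not at hc
    refine hzB2 (Finset.mem_biUnion.2 ⟨w, by simpa using ⟨hw, huw⟩, ?_⟩)
    exact Finset.mem_filter.2 ⟨hzN, hfz w hw, Or.inr ⟨d, hd, had, hc⟩⟩

/-- the embedding -/
theorem embed_cleanK {T K : SimpleGraph V} {r : V → ℕ} {A : Set V} (hB : BuildK T K r A) {s δ : ℕ}
    {Γ M : SimpleGraph X} (hMΓ : M ≤ Γ) (hs : Fintype.card V ≤ s) (hs0 : 0 < s)
    (hcl : CleanK s δ Γ M) (hδ : 2 * s < δ) (hne : ∃ x y, Γ.Adj x y) (f0 : V → X)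
    (b1 : ∀ a ∈ A, ∃ z, Γ.Adj (f0 a) z) (b2 : ∀ a ∈ A, ∀ b ∈ A, f0 a = f0 b → a = b)
    (b3 : ∀ a ∈ A, ∀ b ∈ A, T.Adj a b → M.Adj (f0 a) (f0 b)) (t : ℕ) :
    ∃ f : V → X, InvK T K r A s Γ M (fun a => a ∈ A ∨ r a < t) f := by
  obtain ⟨x0, y0, hxy0⟩ := hne
  induction t with
  | zero =>
    refine ⟨f0, ⟨?_, ?_, ?_, ?_, ?_, ?_⟩⟩
    · rintro a b (ha | ha) (hb | hb) hab
      · exact b2 a ha b hb hab
      all_goals omega
    · rintro a (ha | ha)
      · exact b1 a ha
      · omega
    · rintro a b (ha | ha) (hb | hb) hab
      · exact hMΓ (b3 a ha b hb hab)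
      all_goals omega
    · rintro a b (ha | ha) (hb | hb) hab
      · exact b3 a ha b hb (hB.le hab)
      all_goals omega
    · rintro x x' y _ (hx' | hx') _ _ _ hA _
      · exact absurd hx' hA
      · omega
    · rintro x y y' _ _ (hy' | hy') _ _ hA _
      · exact absurd hy' hA
      · omega
  | succ t ih =>
    obtain ⟨f, hf⟩ := ih
    by_cases hv : ∃ v, v ∉ A ∧ r v = t
    · obtain ⟨v, hvA, hv⟩ := hv
      set P : V → Prop := fun a => a ∈ A ∨ r a < t with hP
      have hPv : ¬ P v := by
        rintro (h | h)
        · exact hvA h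
        · omega
      have hlt : ∀ a, P a → r a < r v := by
        rintro a (h | h)
        · exact hB.first a h v hvA
        · omega
      have hPlt : ∀ a, r a < t → P a := fun a h => Or.inr h
      have hPeq : (fun a => a ∈ A ∨ r a < t + 1) = fun a => P a ∨ a = v := by
        ext a
        constructor
        · rintro (h | h)
          · exact Or.inl (Or.inl h)
          · by_cases hav : r a = t
            · exact Or.inr (hB.inj (hav.trans hv.symm))
            · exact Or.inl (Or.inr (by omega))
        · rintro ((h | h) | rfl)
          · exact Or.inl h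
          · exact Or.inr (by omega)
          · exact Or.inr (by omega)
      rw [hPeq]
      have hback : ∀ a, P a → T.Adj v a → a ∈ back T r v := fun a ha hva => ⟨hva, hlt a ha⟩
      have hback' : ∀ a, a ∈ back T r v → P a := fun a ha => Or.inr (by have := ha.2; omega)
      have hPb : ∀ u, back T r v = {u} → P u := fun u hu => hback' u (by rw [hu]; rfl)
      -- used vertices
      set U : Finset X := (univ.filter (fun b : V => P b)).image f with hU
      have hUc : U.card < s := by
        refine lt_of_le_of_lt Finset.card_image_le (lt_of_lt_of_le ?_ hs)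
        rw [← Finset.card_univ]
        refine Finset.card_lt_card ⟨Finset.filter_subset _ _, ?_⟩
        intro h
        have := h (Finset.mem_univ v)
        exact hPv (by simpa using this)
      have hUf : ∀ z, z ∉ U → ∀ a, P a → f a ≠ z := by
        intro z hz a ha haz
        exact hz (Finset.mem_image.2 ⟨a, by simpa using ha, haz⟩)
      have havoid : ∀ W : Finset X, s ≤ W.card → ∃ z ∈ W, z ∉ U := by
        intro W hW
        by_contra hcon
        push Not at hcon
        have := Finset.card_le_card (show _ ⊆ U from hcon)
        omega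
      by_cases h0 : ∃ x, x ∈ back T r v
      · obtain ⟨x, hx⟩ := h0
        by_cases h1 : ∃ x', x' ∈ back T r v ∧ x ≠ x'
        · -- two earlier neighbours
          obtain ⟨x', hx', hxx'⟩ := h1
          have honly : ∀ c, c ∈ back T r v → c = x ∨ c = x' := by
            intro c hc
            by_contra hcon
            push Not at hcon
            have h3 : ({c, x, x'} : Set V) ⊆ back T r v := by
              intro y hy
              simp only [Set.mem_insert_iff, Set.mem_singleton_iff] at hy
              rcases hy with rfl | rfl | rfl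
              · exact hc
              · exact hx
              · exact hx'
            have h4 := (Set.encard_le_encard h3).trans (hB.two v hvA)
            rw [Set.encard_insert_of_notMem (by simp [hcon.1, hcon.2]), Set.encard_pair hxx'] at h4
            norm_num at h4
          have hPx := hback' x hx
          have hPx' := hback' x' hx'
          -- it suffices to find a suitable vertex
          suffices hz : ∃ z, z ∉ U ∧ Γ.Adj z (f x) ∧ Γ.Adj z (f x') ∧
              (K.Adj v x → M.Adj z (f x)) ∧ (K.Adj v x' → M.Adj z (f x')) by
            obtain ⟨z, hzU, hz1, hz2, hz3, hz4⟩ := hz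
            refine ⟨_, hf.add v z hPv hlt (hUf z hzU) ⟨_, hz1⟩ ?_ ?_ ?_ ?_ hPb⟩
            · intro a ha hva
              rcases honly a (hback a ha hva) with rfl | rfl
              · exact hz1
              · exact hz2
            · intro a ha hva
              rcases honly a (hback a ha (hB.le hva)) with rfl | rfl
              · exact hz3 hva
              · exact hz4 hva
            · intro u _ hu
              exfalso
              rw [hu] at hx hx'
              exact hxx' (hx.trans hx'.symm)
            · intro u _ hu
              exfalso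
              rw [hu] at hx hx'
              exact hxx' (hx.trans hx'.symm)
          -- a black edge to both: many common black neighbours suffice
          have hmany : s ≤ (cn M (f x) (f x')).card → ∃ z, z ∉ U ∧ Γ.Adj z (f x) ∧
              Γ.Adj z (f x') ∧ (K.Adj v x → M.Adj z (f x)) ∧ (K.Adj v x' → M.Adj z (f x')) := by
            intro hh
            obtain ⟨z, hz, hzU⟩ := havoid _ hh
            simp only [cn, mem_filter, mem_univ, true_and] at hz
            exact ⟨z, hzU, (hMΓ hz.1).symm, (hMΓ hz.2).symm, fun _ => hz.1.symm, fun _ => hz.2.symm⟩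
          have hsquare : ∀ a b, a ∈ back T r v → b ∈ back T r v → a ≠ b → ∀ y y', K.Adj a y →
              K.Adj b y → K.Adj a y' → K.Adj b y' → r y < r y' → y' ∉ A → back T r y' = {a} →
              s ≤ (cn M (f a) (f b)).card := by
            intro a b ha hb hab y y' k1 k2 k3 k4 hr hA hbk
            have hnb : b ∉ back T r y' := by rw [hbk]; exact fun h => hab h.symm
            have h1 : ¬ r b < r y' := fun h => hnb ⟨hB.le k4.symm, h⟩
            have h2 := hb.2
            have hy' : P y' := Or.inr (by omega)
            have hy : P y := Or.inr (by omega)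
            have hPa := hback' a ha
            have hPb' := hback' b hb
            refine hf.heavy2 a y y' hPa hy hy' k1 hr hA hbk (f b) ?_
              (fun h => hab (hf.inj a b hPa hPb' h))
            simp only [cn, mem_filter, mem_univ, true_and]
            exact ⟨hf.blk y b hy hPb' k2.symm, hf.blk y' b hy' hPb' k4.symm⟩
          rcases hB.rule v hvA x hx x' hx' hxx' with
            ⟨hadj, hnot, himp⟩ | ⟨y, hxy, hx'y, hch⟩ | ⟨y, y', k1, k2, k3, k4, hr, hA, hbk⟩
          · by_cases hk1 : K.Adj v x
            · have hk2 : ¬ K.Adj v x' := fun h => hnot ⟨hk1, h⟩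
              have hM := hf.blk x x' hPx hPx' (himp (Or.inl hk1))
              obtain ⟨z, hz, hzU⟩ := havoid _ (hcl.chy _ _ hM)
              simp only [bn, mem_filter, mem_univ, true_and] at hz
              exact ⟨z, hzU, (hMΓ hz.1).symm, hz.2.symm, fun _ => hz.1.symm, fun h => absurd h hk2⟩
            · by_cases hk2 : K.Adj v x'
              · have hM := hf.blk x x' hPx hPx' (himp (Or.inr hk2))
                obtain ⟨z, hz, hzU⟩ := havoid _ (hcl.chy _ _ hM.symm)
                simp only [bn, mem_filter, mem_univ, true_and] at hz
                exact ⟨z, hzU, hz.2.symm, (hMΓ hz.1).symm, fun h => absurd h hk1, fun _ => hz.1.symm⟩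
              · obtain ⟨z, hz, hzU⟩ := havoid _ (hcl.tri _ _ (hf.adj x x' hPx hPx' hadj))
                simp only [cn, mem_filter, mem_univ, true_and] at hz
                exact ⟨z, hzU, hz.1.symm, hz.2.symm, fun h => absurd h hk1, fun h => absurd h hk2⟩
          · refine hmany ?_
            rcases hch with ⟨hr, hA, hb⟩ | ⟨hr, hA, hb⟩
            · exact hf.heavy x x' y hPx hPx' hxy hx'y hr hA hb
            · rw [cn_comm]
              exact hf.heavy x' x y hPx' hPx hx'y hxy hr hA hb
          · refine hmany ?_
            rcases hbk with hbk | hbk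
            · exact hsquare x x' hx hx' hxx' y y' k1 k2 k3 k4 hr hA hbk
            · rw [cn_comm]
              exact hsquare x' x hx' hx hxx'.symm y y' k2 k1 k4 k3 hr hA hbk
        · -- one earlier neighbour
          push Not at h1
          have hbx : back T r v = {x} := by
            ext c
            constructor
            · intro hc; exact (h1 c hc).symm
            · intro hc; rw [hc]; exact hx
          obtain ⟨z, c1, c2, c3, c4⟩ := exists_childK hf hs hs0 hcl hδ x (hback' x hx)
          refine ⟨_, hf.add v z hPv hlt c1 ⟨_, (hMΓ c2).symm⟩ ?_ ?_ ?_ ?_ hPb⟩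
          · intro a ha hva
            rw [← h1 a (hback a ha hva)]
            exact (hMΓ c2).symm
          · intro a ha hva
            rw [← h1 a (hback a ha (hB.le hva))]
            exact c2.symm
          · intro u _ hu
            have hux : u = x := by
              rw [hbx] at hu
              exact (Set.singleton_injective hu).symm
            rw [hux]
            exact c3
          · intro u _ hu
            have hux : u = x := by
              rw [hbx] at hu
              exact (Set.singleton_injective hu).symm
            rw [hux]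
            exact c4
      · -- no earlier neighbour
        push Not at h0
        have hd0 := hcl.deg x0 ⟨y0, hxy0⟩
        obtain ⟨z, hz, hzU⟩ := havoid (nbr M x0) (by omega)
        simp only [nbr, mem_filter, mem_univ, true_and] at hz
        refine ⟨_, hf.add v z hPv hlt (hUf z hzU) ⟨x0, (hMΓ hz).symm⟩ ?_ ?_ ?_ ?_ hPb⟩
        · intro a ha hva
          exact absurd (hback a ha hva) (h0 a)
        · intro a ha hva
          exact absurd (hback a ha (hB.le hva)) (h0 a)
        · intro u _ hu
          exact absurd (by rw [hu]; rfl) (h0 u)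
        · intro u _ hu
          exact absurd (by rw [hu]; rfl) (h0 u)
    · push Not at hv
      refine ⟨f, ?_⟩
      have hPeq : (fun a => a ∈ A ∨ r a < t + 1) = fun a => a ∈ A ∨ r a < t := by
        ext a
        constructor
        · rintro (h | h)
          · exact Or.inl h
          · by_cases haA : a ∈ A
            · exact Or.inl haA
            · have := hv a haA
              exact Or.inr (by omega)
        · rintro (h | h)
          · exact Or.inl h
          · exact Or.inr (by omega)
      rw [hPeq]
      exact hf

end Pool.Agent.Helper6.Rsl
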