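import Pool.Agent.Helper30.TwoTree.Greedy

/-! # Peeling a graph: triangle-poor edges, vertices with many light pairs, low degree vertices -/

set_option autoImplicit false
open Classical Finset

namespace Pool.Agent.Helper6.Rsl
open Pool.Agent.Helper30.TwoTree (prs tri restr nb)

variable {X : Type} [Fintype X]

/-- neighbours -/
noncomputable def nbr (Γ : SimpleGraph X) (x : X) : Finset X := univ.filter (fun z => Γ.Adj x z)

/-- common neighbours -/
noncomputable def cn (Γ : SimpleGraph X) (x y : X) : Finset X :=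
  univ.filter (fun z => Γ.Adj x z ∧ Γ.Adj y z)

/-- the light partners of `x` among the neighbours of `y` -/
noncomputable def ltp (s : ℕ) (Γ : SimpleGraph X) (y x : X) : Finset X :=
  (nbr Γ y).filter (fun z => x ≠ z ∧ (cn Γ x z).card < s)

/-- number of ordered light pairs among the neighbours of `y` -/
noncomputable def lt (s : ℕ) (Γ : SimpleGraph X) (y : X) : ℕ := ∑ x ∈ nbr Γ y, (ltp s Γ y x).card

/-- the non-isolated vertices -/
noncomputable def niv (Γ : SimpleGraph X) : Finset X := univ.filter (fun y => ∃ z, Γ.Adj y z)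

/-- potential: truncated codegrees -/
noncomputable def Phi (s : ℕ) (Γ : SimpleGraph X) : ℕ :=
  ∑ p : X × X, if p.1 ≠ p.2 then min (cn Γ p.1 p.2).card s else 0

/-- cherries with centre `v` and legs in `E`, closed by an edge of `Γ` -/
noncomputable def chr (E Γ : SimpleGraph X) : Finset (X × X × X) :=
  univ.filter (fun p => E.Adj p.1 p.2.1 ∧ E.Adj p.1 p.2.2 ∧ Γ.Adj p.2.1 p.2.2)

/-- nothing to peel -/
def Clean (s δ : ℕ) (Γ : SimpleGraph X) : Prop :=
  (∀ x y, Γ.Adj x y → s ≤ (cn Γ x y).card) ∧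
  ∀ y, (∃ z, Γ.Adj y z) → δ ≤ (nbr Γ y).card ∧ 128 * s * lt s Γ y ≤ (nbr Γ y).card ^ 2

/-- delete the edge `xy` -/
def delE (Γ : SimpleGraph X) (x y : X) : SimpleGraph X where
  Adj a b := Γ.Adj a b ∧ ¬ (a = x ∧ b = y) ∧ ¬ (a = y ∧ b = x)
  symm := ⟨fun a b h => ⟨h.1.symm, fun h' => h.2.2 ⟨h'.2, h'.1⟩, fun h' => h.2.1 ⟨h'.2, h'.1⟩⟩⟩
  loopless := ⟨fun a h => Γ.loopless.irrefl a h.1⟩

/-- add the edge `xy` -/
def addE (E : SimpleGraph X) (x y : X) (h : x ≠ y) : SimpleGraph X where
  Adj a b := E.Adj a b ∨ (a = x ∧ b = y) ∨ (a = y ∧ b = x)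
  symm := ⟨fun a b h => by
    rcases h with h | h | h
    · exact Or.inl h.symm
    · exact Or.inr (Or.inr ⟨h.2, h.1⟩)
    · exact Or.inr (Or.inl ⟨h.2, h.1⟩)⟩
  loopless := ⟨fun a h' => by
    rcases h' with h' | h' | h'
    · exact E.loopless.irrefl a h'
    · exact h (h'.1.symm.trans h'.2)
    · exact h (h'.2.symm.trans h'.1)⟩

/-- delete all edges at `y` -/
def delV (Γ : SimpleGraph X) (y : X) : SimpleGraph X where
  Adj a b := Γ.Adj a b ∧ a ≠ y ∧ b ≠ y
  symm := ⟨fun _ _ h => ⟨h.1.symm, h.2.2, h.2.1⟩⟩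
  loopless := ⟨fun a h => Γ.loopless.irrefl a h.1⟩

theorem delE_le (Γ : SimpleGraph X) (x y : X) : delE Γ x y ≤ Γ := fun _ _ h => h.1

theorem delV_le (Γ : SimpleGraph X) (y : X) : delV Γ y ≤ Γ := fun _ _ h => h.1

theorem cn_mono {Γ' Γ : SimpleGraph X} (h : Γ' ≤ Γ) (x y : X) : cn Γ' x y ⊆ cn Γ x y := by
  intro z hz
  simp only [cn, mem_filter, mem_univ, true_and] at hz ⊢
  exact ⟨h hz.1, h hz.2⟩

theorem niv_mono {Γ' Γ : SimpleGraph X} (h : Γ' ≤ Γ) : niv Γ' ⊆ niv Γ := by
  intro z hz
  simp only [niv, mem_filter, mem_univ, true_and] at hz ⊢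
  obtain ⟨w, hw⟩ := hz
  exact ⟨w, h hw⟩

theorem Phi_mono (s : ℕ) {Γ' Γ : SimpleGraph X} (h : Γ' ≤ Γ) : Phi s Γ' ≤ Phi s Γ := by
  refine Finset.sum_le_sum fun p _ => ?_
  split_ifs
  · exact min_le_min_right _ (Finset.card_le_card (cn_mono h _ _))
  · exact le_rfl

/-- number of edges after deleting the edges at `y` -/
theorem prs_delV (Γ : SimpleGraph X) (y : X) :
    (prs Γ).card ≤ (prs (delV Γ y)).card + 2 * (nbr Γ y).card := by
  have h1 : prs Γ ⊆ prs (delV Γ y) ∪ ((nbr Γ y).image (fun z => (y, z)) ∪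
      (nbr Γ y).image (fun z => (z, y))) := by
    rintro ⟨a, b⟩ hp
    simp only [prs, mem_filter, mem_univ, true_and] at hp
    simp only [mem_union, prs, mem_filter, mem_univ, true_and, mem_image, Prod.mk.injEq, nbr, delV]
    by_cases ha : a = y
    · right; left
      exact ⟨b, by rw [← ha]; exact hp, ha.symm, rfl⟩
    · by_cases hb : b = y
      · right; right
        exact ⟨a, by rw [← hb]; exact hp.symm, rfl, hb.symm⟩
      · exact Or.inl ⟨hp, ha, hb⟩
  refine (Finset.card_le_card h1).trans ((Finset.card_union_le _ _).trans ?_)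
  refine Nat.add_le_add_left ((Finset.card_union_le _ _).trans ?_) _
  have e1 : ((nbr Γ y).image (fun z => (y, z))).card ≤ (nbr Γ y).card := Finset.card_image_le
  have e2 : ((nbr Γ y).image (fun z => (z, y))).card ≤ (nbr Γ y).card := Finset.card_image_le
  omega

theorem prs_delV_lt (Γ : SimpleGraph X) (y : X) (hy : ∃ z, Γ.Adj y z) :
    (prs (delV Γ y)).card < (prs Γ).card := by
  obtain ⟨z, hz⟩ := hy
  refine Finset.card_lt_card ⟨?_, ?_⟩
  · intro p hp
    simp only [prs, mem_filter, mem_univ, true_and] at hp ⊢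
    exact hp.1
  · intro h
    have := @h (y, z) (by simpa [prs] using hz)
    simp only [prs, mem_filter, mem_univ, true_and, delV] at this
    exact this.2.1 rfl

theorem niv_delV (Γ : SimpleGraph X) (y : X) (hy : ∃ z, Γ.Adj y z) :
    (niv (delV Γ y)).card + 1 ≤ (niv Γ).card := by
  have h1 : insert y (niv (delV Γ y)) ⊆ niv Γ := by
    intro a ha
    rcases Finset.mem_insert.1 ha with rfl | ha
    · simpa [niv] using hy
    · exact niv_mono (delV_le Γ y) ha
  have h2 : y ∉ niv (delV Γ y) := by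
    simp only [niv, mem_filter, mem_univ, true_and, delV, not_exists]
    intro z h
    exact h.2.1 rfl
  have h3 := Finset.card_le_card h1
  rw [Finset.card_insert_of_notMem h2] at h3
  exact h3

/-- deleting the edges at `y` decreases the potential by the number of light pairs -/
theorem Phi_delV (s : ℕ) (Γ : SimpleGraph X) (y : X) : Phi s (delV Γ y) + lt s Γ y ≤ Phi s Γ := by
  have h1 : lt s Γ y = ∑ p : X × X, if (p.1 ∈ nbr Γ y ∧ p.2 ∈ nbr Γ y ∧ p.1 ≠ p.2 ∧
      (cn Γ p.1 p.2).card < s) then 1 else 0 := by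
    rw [lt, Fintype.sum_prod_type]
    simp only [Finset.sum_boole, Nat.cast_id]
    rw [← Finset.sum_filter_add_sum_filter_not univ (fun x => x ∈ nbr Γ y)]
    have e0 : ∑ x ∈ univ.filter (fun x => ¬ x ∈ nbr Γ y), (univ.filter (fun z => x ∈ nbr Γ y ∧
        z ∈ nbr Γ y ∧ x ≠ z ∧ (cn Γ x z).card < s)).card = 0 := by
      refine Finset.sum_eq_zero fun x hx => ?_
      rw [Finset.card_eq_zero, Finset.filter_eq_empty_iff]
      intro z _ h
      exact (Finset.mem_filter.1 hx).2 h.1
    rw [e0, add_zero]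
    have e1 : univ.filter (fun x => x ∈ nbr Γ y) = nbr Γ y := by ext; simp
    rw [e1]
    refine Finset.sum_congr rfl fun x hx => ?_
    congr 1
    ext z
    simp only [ltp, mem_filter, mem_univ, true_and]
    tauto
  rw [h1, Phi, Phi, ← Finset.sum_add_distrib]
  refine Finset.sum_le_sum fun p _ => ?_
  by_cases hp : p.1 ≠ p.2
  · rw [if_pos hp, if_pos hp]
    by_cases hl : p.1 ∈ nbr Γ y ∧ p.2 ∈ nbr Γ y ∧ p.1 ≠ p.2 ∧ (cn Γ p.1 p.2).card < s
    · rw [if_pos hl]
      have h2 : (cn (delV Γ y) p.1 p.2).card + 1 ≤ (cn Γ p.1 p.2).card := by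
        have h3 : insert y (cn (delV Γ y) p.1 p.2) ⊆ cn Γ p.1 p.2 := by
          intro a ha
          rcases Finset.mem_insert.1 ha with rfl | ha
          · have h4 := hl.1
            have h5 := hl.2.1
            simp only [nbr, mem_filter, mem_univ, true_and] at h4 h5
            simp only [cn, mem_filter, mem_univ, true_and]
            exact ⟨h4.symm, h5.symm⟩
          · exact cn_mono (delV_le Γ y) _ _ ha
        have h6 : y ∉ cn (delV Γ y) p.1 p.2 := by
          simp only [cn, mem_filter, mem_univ, true_and, delV]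
          intro h
          exact h.1.2.2 rfl
        have h7 := Finset.card_le_card h3
        rw [Finset.card_insert_of_notMem h6] at h7
        exact h7
      have h8 := hl.2.2.2
      omega
    · rw [if_neg hl, add_zero]
      exact min_le_min_right _ (Finset.card_le_card (cn_mono (delV_le Γ y) _ _))
  · rw [if_neg hp, if_neg hp, if_neg (fun h => hp h.2.2.1)]

theorem chr_delV (E Γ : SimpleGraph X) (y : X) (hE : E ≤ delV Γ y) : chr E Γ = chr E (delV Γ y) := by
  ext ⟨v, a, b⟩
  simp only [chr, mem_filter, mem_univ, true_and]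
  constructor
  · rintro ⟨h1, h2, h3⟩
    exact ⟨h1, h2, h3, (hE h1).2.2, (hE h2).2.2⟩
  · rintro ⟨h1, h2, h3⟩
    exact ⟨h1, h2, h3.1⟩

theorem prs_delE (Γ : SimpleGraph X) (x y : X) (hxy : Γ.Adj x y) :
    (prs (delE Γ x y)).card + 2 = (prs Γ).card := by
  have h1 : prs Γ = prs (delE Γ x y) ∪ {(x, y), (y, x)} := by
    ext ⟨a, b⟩
    simp only [prs, mem_union, mem_filter, mem_univ, true_and, mem_insert, mem_singleton, Prod.mk.injEq, delE]
    constructor
    · intro h
      by_cases h1 : a = x ∧ b = y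
      · exact Or.inr (Or.inl h1)
      · by_cases h2 : a = y ∧ b = x
        · exact Or.inr (Or.inr h2)
        · exact Or.inl ⟨h, h1, h2⟩
    · rintro (h | ⟨rfl, rfl⟩ | ⟨rfl, rfl⟩)
      · exact h.1
      · exact hxy
      · exact hxy.symm
  have h2 : Disjoint (prs (delE Γ x y)) {(x, y), (y, x)} := by
    rw [Finset.disjoint_left]
    rintro ⟨a, b⟩ hp hp'
    simp only [prs, mem_filter, mem_univ, true_and, mem_insert, mem_singleton, Prod.mk.injEq, delE] at hp hp'
    rcases hp' with hp' | hp'
    · exact hp.2.1 hp'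
    · exact hp.2.2 hp'
  rw [h1, Finset.card_union_of_disjoint h2, Finset.card_pair (by
    intro h
    have := congrArg Prod.fst h
    exact hxy.ne this)]

theorem prs_addE (E Γ : SimpleGraph X) (x y : X) (hxy : Γ.Adj x y) (hE : E ≤ delE Γ x y) :
    (prs E).card + 2 = (prs (addE E x y hxy.ne)).card := by
  have h1 : delE (addE E x y hxy.ne) x y = E := by
    ext a b
    simp only [delE, addE]
    constructor
    · rintro ⟨h | h | h, h1, h2⟩
      · exact h
      · exact absurd h h1
      · exact absurd h h2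
    · intro h
      exact ⟨Or.inl h, (hE h).2.1, (hE h).2.2⟩
  have h2 := prs_delE (addE E x y hxy.ne) x y (Or.inr (Or.inl ⟨rfl, rfl⟩))
  rw [h1] at h2
  exact h2

theorem chr_addE (E Γ : SimpleGraph X) (x y : X) (hxy : Γ.Adj x y) (hE : E ≤ delE Γ x y) (n : ℕ)
    (hc : (cn Γ x y).card ≤ n) :
    (chr (addE E x y hxy.ne) Γ).card ≤ (chr E (delE Γ x y)).card + 6 * n := by
  set C := cn Γ x y with hC
  have hle : addE E x y hxy.ne ≤ Γ := by
    intro a b h
    rcases h with h | ⟨rfl, rfl⟩ | ⟨rfl, rfl⟩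
    · exact (hE h).1
    · exact hxy
    · exact hxy.symm
  have h1 : chr (addE E x y hxy.ne) Γ ⊆ chr E (delE Γ x y) ∪ (C.image (fun z => (x, y, z)) ∪
      C.image (fun z => (y, x, z)) ∪
      C.image (fun z => (x, z, y)) ∪ C.image (fun z => (y, z, x)) ∪
      C.image (fun z => (z, x, y)) ∪ C.image (fun z => (z, y, x))) := by
    rintro ⟨a, b, c⟩ hp
    simp only [chr, mem_filter, mem_univ, true_and] at hp
    obtain ⟨hab', hac', hbc⟩ := hp
    have hab := hle hab'
    have hac := hle hac'
    by_cases hin : (a, b, c) ∈ chr E (delE Γ x y)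
    · exact Finset.mem_union_left _ hin
    · apply Finset.mem_union_right
      simp only [chr, mem_filter, mem_univ, true_and] at hin
      simp only [mem_union, mem_image, Prod.mk.injEq]
      have key : (a = x ∧ b = y) ∨ (a = y ∧ b = x) ∨ (a = x ∧ c = y) ∨ (a = y ∧ c = x) ∨
          (b = x ∧ c = y) ∨ (b = y ∧ c = x) := by
        by_contra hcon
        apply hin
        push Not at hcon
        obtain ⟨c1, c2, c3, c4, c5, c6⟩ := hcon
        refine ⟨?_, ?_, ⟨hbc, fun h => c5 h.1 h.2, fun h => c6 h.1 h.2⟩⟩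
        · rcases hab' with h | h | h
          · exact h
          · exact absurd h.2 (c1 h.1)
          · exact absurd h.2 (c2 h.1)
        · rcases hac' with h | h | h
          · exact h
          · exact absurd h.2 (c3 h.1)
          · exact absurd h.2 (c4 h.1)
      rcases key with ⟨rfl, rfl⟩ | ⟨rfl, rfl⟩ | ⟨rfl, rfl⟩ | ⟨rfl, rfl⟩ | ⟨rfl, rfl⟩ | ⟨rfl, rfl⟩
      · exact Or.inl (Or.inl (Or.inl (Or.inl (Or.inl ⟨c, by simp [hC, cn, hac, hbc], rfl, rfl, rfl⟩))))
      · exact Or.inl (Or.inl (Or.inl (Or.inl (Or.inr ⟨c, by simp [hC, cn, hac, hbc], rfl, rfl, rfl⟩))))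
      · exact Or.inl (Or.inl (Or.inl (Or.inr ⟨b, by simp [hC, cn, hab, hbc.symm], rfl, rfl, rfl⟩)))
      · exact Or.inl (Or.inl (Or.inr ⟨b, by simp [hC, cn, hab, hbc.symm], rfl, rfl, rfl⟩))
      · exact Or.inl (Or.inr ⟨a, by simp [hC, cn, hab.symm, hac.symm], rfl, rfl, rfl⟩)
      · exact Or.inr ⟨a, by simp [hC, cn, hab.symm, hac.symm], rfl, rfl, rfl⟩
  refine (Finset.card_le_card h1).trans ((Finset.card_union_le _ _).trans ?_)
  refine Nat.add_le_add_left ?_ _
  have hi : ∀ g : X → X × X × X, (C.image g).card ≤ n := fun g => Finset.card_image_le.trans hc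
  have e1 := Finset.card_union_le (C.image (fun z => (x, y, z)) ∪ C.image (fun z => (y, x, z)) ∪
      C.image (fun z => (x, z, y)) ∪ C.image (fun z => (y, z, x)) ∪
      C.image (fun z => (z, x, y))) (C.image (fun z => (z, y, x)))
  have e2 := Finset.card_union_le (C.image (fun z => (x, y, z)) ∪ C.image (fun z => (y, x, z)) ∪
      C.image (fun z => (x, z, y)) ∪ C.image (fun z => (y, z, x))) (C.image (fun z => (z, x, y)))
  have e3 := Finset.card_union_le (C.image (fun z => (x, y, z)) ∪ C.image (fun z => (y, x, z)) ∪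
      C.image (fun z => (x, z, y))) (C.image (fun z => (y, z, x)))
  have e4 := Finset.card_union_le (C.image (fun z => (x, y, z)) ∪ C.image (fun z => (y, x, z)))
      (C.image (fun z => (x, z, y)))
  have e5 := Finset.card_union_le (C.image (fun z => (x, y, z))) (C.image (fun z => (y, x, z)))
  have i1 := hi (fun z => (x, y, z))
  have i2 := hi (fun z => (y, x, z))
  have i3 := hi (fun z => (x, z, y))
  have i4 := hi (fun z => (y, z, x))
  have i5 := hi (fun z => (z, x, y))
  have i6 := hi (fun z => (z, y, x))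
  omega

/-- the peeling lemma -/
theorem peel (s δ : ℕ) (ν e0 : ℝ) (hν : 0 < ν) (k : ℕ) : ∀ Γ : SimpleGraph X, (prs Γ).card ≤ k →
    (∀ Γ' : SimpleGraph X, Γ' ≤ Γ → Clean s δ Γ' → ((prs Γ').card : ℝ) ≤ e0) →
    ∃ E : SimpleGraph X, E ≤ Γ ∧ (chr E Γ).card ≤ 3 * s * (prs E).card ∧
      ((prs Γ).card : ℝ) ≤ (prs E).card + (ν + 2 * δ) * (niv Γ).card + 128 * s / ν * Phi s Γ + e0 := by
  induction k with
  | zero =>
    intro Γ hk hbase
    refine ⟨⊥, bot_le, ?_, ?_⟩
    · have : chr (⊥ : SimpleGraph X) Γ = ∅ := by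
        apply Finset.eq_empty_of_forall_notMem
        intro p hp
        simp only [chr, mem_filter, mem_univ, true_and] at hp
        exact hp.1
      rw [this]; simp
    · have hno : ∀ x y, ¬ Γ.Adj x y := by
        intro x y h
        have : (x, y) ∈ prs Γ := by simpa [prs] using h
        have h1 : 0 < (prs Γ).card := Finset.card_pos.2 ⟨_, this⟩
        omega
      have h0 := hbase Γ le_rfl ⟨fun x y h => absurd h (hno x y), fun y ⟨z, h⟩ => absurd h (hno y z)⟩
      have h1 : (0:ℝ) ≤ (prs (⊥ : SimpleGraph X)).card + (ν + 2 * δ) * (niv Γ).card +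
        128 * s / ν * Phi s Γ := by positivity
      linarith
  | succ k ih =>
    intro Γ hk hbase
    by_cases hcl : Clean s δ Γ
    · refine ⟨⊥, bot_le, ?_, ?_⟩
      · have : chr (⊥ : SimpleGraph X) Γ = ∅ := by
          apply Finset.eq_empty_of_forall_notMem
          intro p hp
          simp only [chr, mem_filter, mem_univ, true_and] at hp
          exact hp.1
        rw [this]; simp
      · have h0 := hbase Γ le_rfl hcl
        have h1 : (0:ℝ) ≤ (prs (⊥ : SimpleGraph X)).card + (ν + 2 * δ) * (niv Γ).card +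
          128 * s / ν * Phi s Γ := by positivity
        linarith
    · by_cases hP1 : ∃ x y, Γ.Adj x y ∧ (cn Γ x y).card < s
      · obtain ⟨x, y, hxy, hc⟩ := hP1
        have hprs := prs_delE Γ x y hxy
        obtain ⟨E, hE, hchr, hle⟩ := ih (delE Γ x y) (by omega)
          (fun Γ' h hc => hbase Γ' (h.trans (delE_le Γ x y)) hc)
        have hprsE := prs_addE E Γ x y hxy hE
        refine ⟨addE E x y hxy.ne, ?_, ?_, ?_⟩
        · intro a b h
          rcases h with h | ⟨rfl, rfl⟩ | ⟨rfl, rfl⟩
          · exact (hE h).1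
          · exact hxy
          · exact hxy.symm
        · have h1 := chr_addE E Γ x y hxy hE s hc.le
          calc (chr (addE E x y hxy.ne) Γ).card ≤ (chr E (delE Γ x y)).card + 6 * s := h1
            _ ≤ 3 * s * (prs E).card + 6 * s := Nat.add_le_add_right hchr _
            _ = 3 * s * ((prs E).card + 2) := by ring
            _ = 3 * s * (prs (addE E x y hxy.ne)).card := by rw [hprsE]
        · have h1 : ((prs Γ).card : ℝ) = (prs (delE Γ x y)).card + 2 := by
            rw [← hprs]; push_cast; ring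
          have h2 : ((prs (addE E x y hxy.ne)).card : ℝ) = (prs E).card + 2 := by
            rw [← hprsE]; push_cast; ring
          have h3 : ((niv (delE Γ x y)).card : ℝ) ≤ (niv Γ).card := by
            exact_mod_cast Finset.card_le_card (niv_mono (delE_le Γ x y))
          have h4 : (Phi s (delE Γ x y) : ℝ) ≤ Phi s Γ := by exact_mod_cast Phi_mono s (delE_le Γ x y)
          have h5 : (0:ℝ) ≤ ν + 2 * δ := by positivity
          have h6 : (0:ℝ) ≤ 128 * s / ν := by positivity
          have h7 := mul_le_mul_of_nonneg_left h3 h5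
          have h8 := mul_le_mul_of_nonneg_left h4 h6
          rw [h1, h2]
          linarith
      · -- a vertex is deleted
        push Not at hP1
        have hV : ∃ y, (∃ z, Γ.Adj y z) ∧ ((nbr Γ y).card < δ ∨ (nbr Γ y).card ^ 2 < 128 * s * lt s Γ y) := by
          by_contra hcon
          push Not at hcon
          exact hcl ⟨hP1, fun y hy => hcon y hy⟩
        obtain ⟨y, hy, hyc⟩ := hV
        have hprs := prs_delV Γ y
        have hprs' := prs_delV_lt Γ y hy
        obtain ⟨E, hE, hchr, hle⟩ := ih (delV Γ y) (by omega)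
          (fun Γ' h hc => hbase Γ' (h.trans (delV_le Γ y)) hc)
        refine ⟨E, hE.trans (delV_le Γ y), ?_, ?_⟩
        · rw [chr_delV E Γ y hE]; exact hchr
        · have h1 : ((prs Γ).card : ℝ) ≤ (prs (delV Γ y)).card + 2 * (nbr Γ y).card := by
            exact_mod_cast hprs
          have h2 : ((niv (delV Γ y)).card : ℝ) + 1 ≤ (niv Γ).card := by exact_mod_cast niv_delV Γ y hy
          have h3 : (Phi s (delV Γ y) : ℝ) + lt s Γ y ≤ Phi s Γ := by exact_mod_cast Phi_delV s Γ y
          have h5 : (0:ℝ) ≤ ν + 2 * δ := by positivity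
          have h6 : (0:ℝ) ≤ 128 * s / ν := by positivity
          have h7 := mul_le_mul_of_nonneg_left h2 h5
          have h8 := mul_le_mul_of_nonneg_left h3 h6
          set D : ℝ := ((nbr Γ y).card : ℝ) with hD
          have hL0 : (0:ℝ) ≤ (lt s Γ y : ℝ) := by positivity
          have key : 2 * D ≤ (ν + 2 * δ) + 128 * s / ν * lt s Γ y := by
            rcases hyc with h | h
            · have h9 : D ≤ δ := by rw [hD]; exact_mod_cast h.le
              have := mul_nonneg h6 hL0
              linarith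
            · have h9 : D ^ 2 ≤ 128 * s * lt s Γ y := by rw [hD]; exact_mod_cast h.le
              have h10 : 2 * D ≤ D ^ 2 / ν + ν := by
                have h11 : D ^ 2 / ν + ν - 2 * D = (D - ν) ^ 2 / ν := by field_simp; ring
                have h12 : 0 ≤ (D - ν) ^ 2 / ν := by positivity
                linarith
              have h13 : D ^ 2 / ν ≤ 128 * s / ν * lt s Γ y := by
                rw [div_mul_eq_mul_div]
                exact div_le_div_of_nonneg_right h9 hν.le
              have : (0:ℝ) ≤ δ := by positivity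
              linarith
          linarith

end Pool.Agent.Helper6.Rsl
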