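import Pool.Agent.Helper6.Rsl.Peel

/-! # Peeling a pair of graphs `M ≤ Γ` (`M`: the black edges) -/

set_option autoImplicit false
open Classical Finset

namespace Pool.Agent.Helper6.Rsl
open Pool.Agent.Helper30.TwoTree (prs tri restr nb)

variable {X : Type} [Fintype X]

/-- the vertices `z` such that `x z` is black and `y z` is an edge -/
noncomputable def bn (Γ M : SimpleGraph X) (x y : X) : Finset X :=
  univ.filter (fun z => M.Adj x z ∧ Γ.Adj y z)

/-- the bad partners of `x` among the black neighbours of `y` -/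
noncomputable def bp (s : ℕ) (M : SimpleGraph X) (y x : X) : Finset X :=
  (nbr M y).filter (fun z => x ≠ z ∧ ((cn M x z).card < s ∨
    ∃ d ∈ cn M x z, y ≠ d ∧ (cn M y d).card < s))

theorem bp_card_le (s : ℕ) (hs : 0 < s) (M : SimpleGraph X) (x y : X) :
    (bp s M y x).card ≤ s * ((ltp s M y x).card + (ltp s M x y).card) := by
  have h1 : bp s M y x ⊆ ltp s M y x ∪ (ltp s M x y).biUnion (fun d => cn M y d) := by
    intro z hz
    simp only [bp, mem_filter] at hz
    obtain ⟨hzN, hxz, h | ⟨d, hd, hyd, hdl⟩⟩ := hz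
    · exact Finset.mem_union_left _ (Finset.mem_filter.2 ⟨hzN, hxz, h⟩)
    · refine Finset.mem_union_right _ (Finset.mem_biUnion.2 ⟨d, ?_, ?_⟩)
      · simp only [cn, mem_filter, mem_univ, true_and] at hd
        exact Finset.mem_filter.2 ⟨by simpa [nbr] using hd.1, hyd, hdl⟩
      · simp only [cn, nbr, mem_filter, mem_univ, true_and] at hd hzN ⊢
        exact ⟨hzN, hd.2.symm⟩
  have h2 : ((ltp s M x y).biUnion (fun d => cn M y d)).card ≤ s * (ltp s M x y).card := by
    refine Finset.card_biUnion_le.trans ?_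
    calc ∑ d ∈ ltp s M x y, (cn M y d).card ≤ ∑ d ∈ ltp s M x y, s :=
          Finset.sum_le_sum fun d hd => (Finset.mem_filter.1 hd).2.2.le
      _ = s * (ltp s M x y).card := by rw [Finset.sum_const, smul_eq_mul, Nat.mul_comm]
  calc (bp s M y x).card ≤ (ltp s M y x).card + ((ltp s M x y).biUnion (fun d => cn M y d)).card :=
        (Finset.card_le_card h1).trans (Finset.card_union_le _ _)
    _ ≤ s * (ltp s M y x).card + s * (ltp s M x y).card := by
        refine Nat.add_le_add ?_ h2
        exact Nat.le_mul_of_pos_left _ hs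
    _ = s * ((ltp s M y x).card + (ltp s M x y).card) := by ring

/-- nothing to peel -/
structure CleanK (s δ : ℕ) (Γ M : SimpleGraph X) : Prop where
  tri : ∀ x y, Γ.Adj x y → s ≤ (cn Γ x y).card
  chy : ∀ x y, M.Adj x y → s ≤ (bn Γ M x y).card
  few : ∀ x y, M.Adj x y → 2 * s * (bp s M y x).card ≤ (nbr M y).card
  deg : ∀ y, (∃ z, Γ.Adj y z) → δ ≤ (nbr M y).card

/-- cherries with both legs in the set `C` of ordered pairs, closed by an edge of `Γ` -/
noncomputable def cch (C : Finset (X × X)) (Γ : SimpleGraph X) : Finset (X × X × X) :=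
  univ.filter (fun p => (p.1, p.2.1) ∈ C ∧ (p.1, p.2.2) ∈ C ∧ Γ.Adj p.2.1 p.2.2)

theorem cch_delV (C : Finset (X × X)) (Γ M : SimpleGraph X) (y : X)
    (hC : ∀ p ∈ C, (delV M y).Adj p.1 p.2) : cch C Γ = cch C (delV Γ y) := by
  ext ⟨v, a, b⟩
  simp only [cch, mem_filter, mem_univ, true_and]
  constructor
  · rintro ⟨h1, h2, h3⟩
    exact ⟨h1, h2, h3, (hC _ h1).2.2, (hC _ h2).2.2⟩
  · rintro ⟨h1, h2, h3⟩
    exact ⟨h1, h2, h3.1⟩

theorem cch_delE (C : Finset (X × X)) (Γ M : SimpleGraph X) (x y : X) (n : ℕ) (hM : M ≤ Γ)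
    (hC : ∀ p ∈ C, (delE M x y).Adj p.1 p.2) (hc : (cn Γ x y).card ≤ n) :
    (cch C Γ).card ≤ (cch C (delE Γ x y)).card + 2 * n := by
  have h1 : cch C Γ ⊆ cch C (delE Γ x y) ∪ ((cn Γ x y).image (fun v => (v, x, y)) ∪
      (cn Γ x y).image (fun v => (v, y, x))) := by
    rintro ⟨v, a, b⟩ hp
    simp only [cch, mem_filter, mem_univ, true_and] at hp
    obtain ⟨h1, h2, h3⟩ := hp
    simp only [mem_union, mem_image, Prod.mk.injEq, cch, mem_filter, mem_univ, true_and]
    have m1 : Γ.Adj v a := hM (hC _ h1).1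
    have m2 : Γ.Adj v b := hM (hC _ h2).1
    by_cases hab : a = x ∧ b = y
    · right; left
      obtain ⟨rfl, rfl⟩ := hab
      exact ⟨v, by simp [cn, m1.symm, m2.symm], rfl, rfl, rfl⟩
    · by_cases hab' : a = y ∧ b = x
      · right; right
        obtain ⟨rfl, rfl⟩ := hab'
        exact ⟨v, by simp [cn, m1.symm, m2.symm], rfl, rfl, rfl⟩
      · left
        exact ⟨h1, h2, h3, hab, hab'⟩
  refine (Finset.card_le_card h1).trans ((Finset.card_union_le _ _).trans ?_)
  refine Nat.add_le_add_left ((Finset.card_union_le _ _).trans ?_) _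
  have e1 : ((cn Γ x y).image (fun v => (v, x, y))).card ≤ n := Finset.card_image_le.trans hc
  have e2 : ((cn Γ x y).image (fun v => (v, y, x))).card ≤ n := Finset.card_image_le.trans hc
  omega

theorem cch_insert (C : Finset (X × X)) (Γ M : SimpleGraph X) (x y : X) (n : ℕ)
    (hC : ∀ p ∈ C, M.Adj p.1 p.2) (hc : (bn Γ M x y).card ≤ n) :
    (cch (insert (x, y) C) Γ).card ≤ (cch C Γ).card + 2 * n := by
  have h1 : cch (insert (x, y) C) Γ ⊆ cch C Γ ∪ ((bn Γ M x y).image (fun b => (x, y, b)) ∪
      (bn Γ M x y).image (fun b => (x, b, y))) := by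
    rintro ⟨v, a, b⟩ hp
    simp only [cch, mem_filter, mem_univ, true_and, mem_insert, Prod.mk.injEq] at hp
    obtain ⟨h1, h2, h3⟩ := hp
    simp only [mem_union, mem_image, Prod.mk.injEq, cch, mem_filter, mem_univ, true_and]
    rcases h1 with ⟨rfl, rfl⟩ | h1
    · rcases h2 with ⟨_, rfl⟩ | h2
      · exact absurd h3 (Γ.loopless.irrefl _)
      · right; left
        exact ⟨b, by simpa [bn] using ⟨hC _ h2, h3⟩, rfl, rfl, rfl⟩
    · rcases h2 with ⟨rfl, rfl⟩ | h2
      · right; right
        exact ⟨a, by simpa [bn] using ⟨hC _ h1, h3.symm⟩, rfl, rfl, rfl⟩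
      · left
        exact ⟨h1, h2, h3⟩
  refine (Finset.card_le_card h1).trans ((Finset.card_union_le _ _).trans ?_)
  refine Nat.add_le_add_left ((Finset.card_union_le _ _).trans ?_) _
  have e1 : ((bn Γ M x y).image (fun b => (x, y, b))).card ≤ n := Finset.card_image_le.trans hc
  have e2 : ((bn Γ M x y).image (fun b => (x, b, y))).card ≤ n := Finset.card_image_le.trans hc
  omega

/-- deleting a black edge -/
theorem Phi_delE (s : ℕ) (M : SimpleGraph X) (x y : X) (hxy : M.Adj x y) :
    Phi s (delE M x y) + 2 * ((ltp s M y x).card + (ltp s M x y).card) ≤ Phi s M := by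
  set P : Finset (X × X) := ((ltp s M y x).image (fun z => (x, z)) ∪
    (ltp s M y x).image (fun z => (z, x))) ∪ ((ltp s M x y).image (fun z => (y, z)) ∪
    (ltp s M x y).image (fun z => (z, y))) with hP
  have hpair : ∀ a b : X, ((ltp s M b a).image (fun z => (a, z)) ∪
      (ltp s M b a).image (fun z => (z, a))).card = 2 * (ltp s M b a).card := by
    intro a b
    rw [Finset.card_union_of_disjoint, Finset.card_image_of_injective, Finset.card_image_of_injective]
    · ring
    · intro c d h; exact (Prod.mk.inj h).1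
    · intro c d h; exact (Prod.mk.inj h).2
    · rw [Finset.disjoint_left]
      rintro ⟨c, d⟩ h1 h2
      simp only [mem_image, Prod.mk.injEq] at h1 h2
      obtain ⟨z, hz, rfl, rfl⟩ := h1
      obtain ⟨w, hw, rfl, h3⟩ := h2
      simp only [ltp, mem_filter] at hz
      exact hz.2.1 h3
  have hPc : P.card = 2 * ((ltp s M y x).card + (ltp s M x y).card) := by
    rw [hP, Finset.card_union_of_disjoint, hpair x y, hpair y x]
    · ring
    · rw [Finset.disjoint_left]
      rintro ⟨c, d⟩ h1 h2
      simp only [mem_union, mem_image, Prod.mk.injEq] at h1 h2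
      have hno : ∀ z, z ∈ ltp s M y x → z ≠ y := by
        rintro z hz rfl
        simp only [ltp, nbr, mem_filter, mem_univ, true_and] at hz
        exact M.loopless.irrefl _ hz.1
      rcases h1 with ⟨z, hz, rfl, rfl⟩ | ⟨z, hz, rfl, rfl⟩
      · rcases h2 with ⟨w, hw, h3, rfl⟩ | ⟨w, hw, rfl, h3⟩
        · exact hxy.ne h3.symm
        · exact hno _ hz h3.symm
      · rcases h2 with ⟨w, hw, h3, rfl⟩ | ⟨w, hw, rfl, h3⟩
        · exact hno _ hz h3.symm
        · exact hxy.ne h3.symm
  have hPs : P.card = ∑ p : X × X, if p ∈ P then 1 else 0 := by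
    rw [Finset.sum_boole]; simp
  rw [← hPc, hPs, Phi, Phi, ← Finset.sum_add_distrib]
  refine Finset.sum_le_sum fun p _ => ?_
  have hmono := Finset.card_le_card (cn_mono (delE_le M x y) p.1 p.2)
  have hcomm : ∀ (Λ : SimpleGraph X) (a b : X), cn Λ a b = cn Λ b a := by
    intro Λ a b
    ext w
    simp only [cn, mem_filter, mem_univ, true_and]
    exact and_comm
  have hxyn : ¬ (delE M x y).Adj x y := fun h => h.2.1 ⟨rfl, rfl⟩
  -- a light pair which loses a common neighbour
  have keyA : ∀ z, z ∈ ltp s M y x → x ≠ z ∧ (cn M x z).card < s ∧ y ∈ cn M x z ∧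
      y ∉ cn (delE M x y) x z := by
    intro z hz
    simp only [ltp, nbr, mem_filter, mem_univ, true_and] at hz
    refine ⟨hz.2.1, hz.2.2, ?_, ?_⟩
    · simp only [cn, mem_filter, mem_univ, true_and]
      exact ⟨hxy, hz.1.symm⟩
    · intro h
      exact hxyn (Finset.mem_filter.1 h).2.1
  have keyB : ∀ z, z ∈ ltp s M x y → y ≠ z ∧ (cn M y z).card < s ∧ x ∈ cn M y z ∧
      x ∉ cn (delE M x y) y z := by
    intro z hz
    simp only [ltp, nbr, mem_filter, mem_univ, true_and] at hz
    refine ⟨hz.2.1, hz.2.2, ?_, ?_⟩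
    · simp only [cn, mem_filter, mem_univ, true_and]
      exact ⟨hxy.symm, hz.1.symm⟩
    · intro h
      exact hxyn (Finset.mem_filter.1 h).2.1.symm
  by_cases hpP : p ∈ P
  · have key : p.1 ≠ p.2 ∧ (cn M p.1 p.2).card < s ∧ ∃ w, w ∈ cn M p.1 p.2 ∧
        w ∉ cn (delE M x y) p.1 p.2 := by
      rw [hP, Finset.mem_union, Finset.mem_union, Finset.mem_union, Finset.mem_image, Finset.mem_image,
        Finset.mem_image, Finset.mem_image] at hpP
      rcases hpP with (⟨z, hz, rfl⟩ | ⟨z, hz, rfl⟩) | (⟨z, hz, rfl⟩ | ⟨z, hz, rfl⟩)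
      · obtain ⟨k1, k2, k3, k4⟩ := keyA z hz
        exact ⟨k1, k2, y, k3, k4⟩
      · obtain ⟨k1, k2, k3, k4⟩ := keyA z hz
        refine ⟨k1.symm, ?_, y, ?_, ?_⟩
        · rw [hcomm]; exact k2
        · rw [hcomm]; exact k3
        · rw [hcomm]; exact k4
      · obtain ⟨k1, k2, k3, k4⟩ := keyB z hz
        exact ⟨k1, k2, x, k3, k4⟩
      · obtain ⟨k1, k2, k3, k4⟩ := keyB z hz
        refine ⟨k1.symm, ?_, x, ?_, ?_⟩
        · rw [hcomm]; exact k2
        · rw [hcomm]; exact k3
        · rw [hcomm]; exact k4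
    obtain ⟨k1, k2, w, k3, k4⟩ := key
    have k5 : (cn (delE M x y) p.1 p.2).card + 1 ≤ (cn M p.1 p.2).card := by
      have h3 : insert w (cn (delE M x y) p.1 p.2) ⊆ cn M p.1 p.2 := by
        intro a ha
        rcases Finset.mem_insert.1 ha with rfl | ha
        · exact k3
        · exact cn_mono (delE_le M x y) _ _ ha
      have h7 := Finset.card_le_card h3
      rw [Finset.card_insert_of_notMem k4] at h7
      exact h7
    rw [if_pos hpP, if_pos k1, if_pos k1]
    omega
  · rw [if_neg hpP, add_zero]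
    split_ifs
    · exact min_le_min_right _ hmono
    · exact le_rfl

/-- the peeling lemma for a pair of graphs -/
theorem peelK (s δ : ℕ) (e0 : ℝ) (hs : 0 < s) (hδ : 0 < δ) (k : ℕ) : ∀ Γ M : SimpleGraph X,
    (prs Γ).card + (prs M).card ≤ k → M ≤ Γ →
    (∀ Γ' M' : SimpleGraph X, Γ' ≤ Γ → M' ≤ M → M' ≤ Γ' → CleanK s δ Γ' M' → ((prs M').card : ℝ) ≤ e0) →
    ∃ (E : SimpleGraph X) (C : Finset (X × X)), E ≤ Γ ∧ (∀ p ∈ C, M.Adj p.1 p.2) ∧
      (chr E Γ).card ≤ 3 * s * (prs E).card ∧
      (cch C Γ).card ≤ 2 * s * C.card + s * (prs E).card ∧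
      ((prs M).card : ℝ) ≤ (prs E).card + 2 * C.card + 2 * δ * (niv Γ).card +
        2 * s ^ 2 / δ * Phi s M + e0 := by
  have hδ' : (0:ℝ) < δ := by exact_mod_cast hδ
  have hclean : ∀ Γ M : SimpleGraph X, M ≤ Γ →
    (∀ Γ' M' : SimpleGraph X, Γ' ≤ Γ → M' ≤ M → M' ≤ Γ' → CleanK s δ Γ' M' → ((prs M').card : ℝ) ≤ e0) →
    CleanK s δ Γ M →
    ∃ (E : SimpleGraph X) (C : Finset (X × X)), E ≤ Γ ∧ (∀ p ∈ C, M.Adj p.1 p.2) ∧
      (chr E Γ).card ≤ 3 * s * (prs E).card ∧
      (cch C Γ).card ≤ 2 * s * C.card + s * (prs E).card ∧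
      ((prs M).card : ℝ) ≤ (prs E).card + 2 * C.card + 2 * δ * (niv Γ).card +
        2 * s ^ 2 / δ * Phi s M + e0 := by
    intro Γ M hM hbase hcl
    refine ⟨⊥, ∅, bot_le, fun p hp => absurd hp (Finset.notMem_empty p), ?_, ?_, ?_⟩
    · have : chr (⊥ : SimpleGraph X) Γ = ∅ := by
        apply Finset.eq_empty_of_forall_notMem
        intro p hp
        simp only [chr, mem_filter, mem_univ, true_and] at hp
        exact hp.1
      rw [this]; simp
    · have : cch (∅ : Finset (X × X)) Γ = ∅ := by
        apply Finset.eq_empty_of_forall_notMem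
        intro p hp
        simp only [cch, mem_filter, mem_univ, true_and] at hp
        exact Finset.notMem_empty _ hp.1
      rw [this]; simp
    · have h0 := hbase Γ M le_rfl le_rfl hM hcl
      have h1 : (0:ℝ) ≤ (prs (⊥ : SimpleGraph X)).card + 2 * (∅ : Finset (X × X)).card +
        2 * δ * (niv Γ).card + 2 * s ^ 2 / δ * Phi s M := by positivity
      linarith
  induction k with
  | zero =>
    intro Γ M hk hM hbase
    have hno : ∀ x y, ¬ Γ.Adj x y := by
      intro x y h
      have : (x, y) ∈ prs Γ := by simpa [prs] using h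
      have h1 : 0 < (prs Γ).card := Finset.card_pos.2 ⟨_, this⟩
      omega
    exact hclean Γ M hM hbase ⟨fun x y h => absurd h (hno x y), fun x y h => absurd (hM h) (hno x y),
      fun x y h => absurd (hM h) (hno x y), fun y ⟨z, h⟩ => absurd h (hno y z)⟩
  | succ k ih =>
    intro Γ M hk hM hbase
    by_cases hO1 : ∃ x y, Γ.Adj x y ∧ (cn Γ x y).card < s
    · -- (O1)
      obtain ⟨x, y, hxy, hc⟩ := hO1
      have hprs := prs_delE Γ x y hxy
      have hMle : delE M x y ≤ delE Γ x y := fun a b h => ⟨hM h.1, h.2⟩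
      have hprsM : (prs M).card ≤ (prs (delE M x y)).card + 2 := by
        by_cases hm : M.Adj x y
        · exact (prs_delE M x y hm).ge
        · have : prs M ⊆ prs (delE M x y) := by
            rintro ⟨a, b⟩ hp
            simp only [prs, mem_filter, mem_univ, true_and, delE] at hp ⊢
            refine ⟨hp, ?_, ?_⟩
            · rintro ⟨rfl, rfl⟩; exact hm hp
            · rintro ⟨rfl, rfl⟩; exact hm hp.symm
          have := Finset.card_le_card this
          omega
      have hprsM' : (prs (delE M x y)).card ≤ (prs M).card := by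
        refine Finset.card_le_card ?_
        intro p hp
        simp only [prs, mem_filter, mem_univ, true_and] at hp ⊢
        exact hp.1
      obtain ⟨E, C, hE, hC, hchr, hcch, hle⟩ := ih (delE Γ x y) (delE M x y) (by omega) hMle
        (fun Γ' M' h1 h2 h3 h4 => hbase Γ' M' (h1.trans (delE_le Γ x y)) (h2.trans (delE_le M x y)) h3 h4)
      have hprsE := prs_addE E Γ x y hxy hE
      refine ⟨addE E x y hxy.ne, C, ?_, fun p hp => (hC p hp).1, ?_, ?_, ?_⟩
      · intro a b h
        rcases h with h | ⟨rfl, rfl⟩ | ⟨rfl, rfl⟩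
        · exact (hE h).1
        · exact hxy
        · exact hxy.symm
      · have h1 := chr_addE E Γ x y hxy hE s hc.le
        calc (chr (addE E x y hxy.ne) Γ).card ≤ (chr E (delE Γ x y)).card + 6 * s := h1
          _ ≤ 3 * s * (prs E).card + 6 * s := Nat.add_le_add_right hchr _
          _ = 3 * s * ((prs E).card + 2) := by ring
          _ = 3 * s * (prs (addE E x y hxy.ne)).card := by rw [hprsE]
      · have h1 := cch_delE C Γ M x y s hM hC hc.le
        calc (cch C Γ).card ≤ (cch C (delE Γ x y)).card + 2 * s := h1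
          _ ≤ 2 * s * C.card + s * (prs E).card + 2 * s := Nat.add_le_add_right hcch _
          _ = 2 * s * C.card + s * ((prs E).card + 2) := by ring
          _ = 2 * s * C.card + s * (prs (addE E x y hxy.ne)).card := by rw [hprsE]
      · have h1 : ((prs M).card : ℝ) ≤ (prs (delE M x y)).card + 2 := by exact_mod_cast hprsM
        have h2 : ((prs (addE E x y hxy.ne)).card : ℝ) = (prs E).card + 2 := by
          rw [← hprsE]; push_cast; ring
        have h3 : ((niv (delE Γ x y)).card : ℝ) ≤ (niv Γ).card := by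
          exact_mod_cast Finset.card_le_card (niv_mono (delE_le Γ x y))
        have h4 : (Phi s (delE M x y) : ℝ) ≤ Phi s M := by exact_mod_cast Phi_mono s (delE_le M x y)
        have h5 : (0:ℝ) ≤ 2 * δ := by positivity
        have h6 : (0:ℝ) ≤ 2 * s ^ 2 / δ := by positivity
        have h7 := mul_le_mul_of_nonneg_left h3 h5
        have h8 := mul_le_mul_of_nonneg_left h4 h6
        rw [h2]
        linarith
    · push Not at hO1
      by_cases hO4 : ∃ y, (∃ z, Γ.Adj y z) ∧ (nbr M y).card < δ
      · -- (O4)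
        obtain ⟨y, hy, hyc⟩ := hO4
        have hprs' := prs_delV_lt Γ y hy
        have hprsM := prs_delV M y
        have hMle : delV M y ≤ delV Γ y := fun a b h => ⟨hM h.1, h.2⟩
        have hprsM' : (prs (delV M y)).card ≤ (prs M).card := by
          refine Finset.card_le_card ?_
          intro p hp
          simp only [prs, mem_filter, mem_univ, true_and] at hp ⊢
          exact hp.1
        obtain ⟨E, C, hE, hC, hchr, hcch, hle⟩ := ih (delV Γ y) (delV M y) (by omega) hMle
          (fun Γ' M' h1 h2 h3 h4 => hbase Γ' M' (h1.trans (delV_le Γ y)) (h2.trans (delV_le M y)) h3 h4)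
        refine ⟨E, C, hE.trans (delV_le Γ y), fun p hp => (hC p hp).1, ?_, ?_, ?_⟩
        · rw [chr_delV E Γ y hE]; exact hchr
        · rw [cch_delV C Γ M y hC]; exact hcch
        · have h1 : ((prs M).card : ℝ) ≤ (prs (delV M y)).card + 2 * (nbr M y).card := by
            exact_mod_cast hprsM
          have h2 : ((niv (delV Γ y)).card : ℝ) + 1 ≤ (niv Γ).card := by exact_mod_cast niv_delV Γ y hy
          have h3 : (Phi s (delV M y) : ℝ) ≤ Phi s M := by exact_mod_cast Phi_mono s (delV_le M y)
          have h5 : (0:ℝ) ≤ 2 * δ := by positivity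
          have h6 : (0:ℝ) ≤ 2 * s ^ 2 / δ := by positivity
          have h7 := mul_le_mul_of_nonneg_left h2 h5
          have h8 := mul_le_mul_of_nonneg_left h3 h6
          have h9 : ((nbr M y).card : ℝ) ≤ δ := by exact_mod_cast hyc.le
          linarith
      · push Not at hO4
        by_cases hO2 : ∃ x y, M.Adj x y ∧ (bn Γ M x y).card < s
        · -- (O2)
          obtain ⟨x, y, hxy, hc⟩ := hO2
          have hprs := prs_delE M x y hxy
          obtain ⟨E, C, hE, hC, hchr, hcch, hle⟩ := ih Γ (delE M x y) (by omega)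
            ((delE_le M x y).trans hM)
            (fun Γ' M' h1 h2 h3 h4 => hbase Γ' M' h1 (h2.trans (delE_le M x y)) h3 h4)
          have hnot : (x, y) ∉ C := fun h => (hC _ h).2.1 ⟨rfl, rfl⟩
          refine ⟨E, insert (x, y) C, hE, ?_, hchr, ?_, ?_⟩
          · intro p hp
            rcases Finset.mem_insert.1 hp with rfl | hp
            · exact hxy
            · exact (hC p hp).1
          · have h1 := cch_insert C Γ M x y s (fun p hp => (hC p hp).1) hc.le
            rw [Finset.card_insert_of_notMem hnot]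
            calc (cch (insert (x, y) C) Γ).card ≤ (cch C Γ).card + 2 * s := h1
              _ ≤ 2 * s * C.card + s * (prs E).card + 2 * s := Nat.add_le_add_right hcch _
              _ = 2 * s * (C.card + 1) + s * (prs E).card := by ring
          · have h1 : ((prs M).card : ℝ) = (prs (delE M x y)).card + 2 := by
              rw [← hprs]; push_cast; ring
            have h2 : ((insert (x, y) C).card : ℝ) = C.card + 1 := by
              rw [Finset.card_insert_of_notMem hnot]; push_cast; ring
            have h4 : (Phi s (delE M x y) : ℝ) ≤ Phi s M := by exact_mod_cast Phi_mono s (delE_le M x y)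
            have h6 : (0:ℝ) ≤ 2 * s ^ 2 / δ := by positivity
            have h8 := mul_le_mul_of_nonneg_left h4 h6
            rw [h1, h2]
            linarith
        · push Not at hO2
          by_cases hO3 : ∃ x y, M.Adj x y ∧ (nbr M y).card < 2 * s * (bp s M y x).card
          · -- (O3)
            obtain ⟨x, y, hxy, hc⟩ := hO3
            have hprs := prs_delE M x y hxy
            have hdy := hO4 y ⟨x, hM hxy.symm⟩
            obtain ⟨E, C, hE, hC, hchr, hcch, hle⟩ := ih Γ (delE M x y) (by omega)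
              ((delE_le M x y).trans hM)
              (fun Γ' M' h1 h2 h3 h4 => hbase Γ' M' h1 (h2.trans (delE_le M x y)) h3 h4)
            refine ⟨E, C, hE, fun p hp => (hC p hp).1, hchr, hcch, ?_⟩
            have h1 : ((prs M).card : ℝ) = (prs (delE M x y)).card + 2 := by
              rw [← hprs]; push_cast; ring
            set L : ℕ := (ltp s M y x).card + (ltp s M x y).card with hL
            have h3 : (Phi s (delE M x y) : ℝ) + 2 * L ≤ Phi s M := by
              exact_mod_cast Phi_delE s M x y hxy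
            have h6 : (0:ℝ) ≤ 2 * s ^ 2 / δ := by positivity
            have h8 := mul_le_mul_of_nonneg_left h3 h6
            have h9 : (2:ℝ) ≤ 2 * s ^ 2 / δ * (2 * L) := by
              rw [div_mul_eq_mul_div, le_div_iff₀ hδ']
              have h10 : (δ:ℝ) ≤ 2 * s ^ 2 * L := by
                have h11 : 2 * s * (bp s M y x).card ≤ 2 * s * (s * L) :=
                  Nat.mul_le_mul_left _ (bp_card_le s hs M x y)
                have h12 : δ ≤ 2 * s ^ 2 * L := by
                  have : 2 * s * (s * L) = 2 * s ^ 2 * L := by ring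
                  omega
                exact_mod_cast h12
              nlinarith
            rw [h1]
            nlinarith
          · push Not at hO3
            exact hclean Γ M hM hbase ⟨hO1, hO2, hO3, hO4⟩

end Pool.Agent.Helper6.Rsl
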